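import Mathlib

namespace Pool.Agent.Helper78.LazyWalk

/-- The endpoint `s₁ s₂ ⋯ sₙ` of a sequence of `n` steps taken from a set `T` of group elements
(the empty product is `1`). -/
def endpoint {G : Type} [Group G] {T : Set G} {n : ℕ} (s : Fin n → T) : G :=
  (List.ofFn fun j => (s j : G)).prod

/-- `p_n(w)` for the lazy random walk with respect to the finite set `S`: the probability that the
word `w` vanishes on the endpoints of `d` independent walks of length `n` whose steps are
independent and uniform on `S ∪ {1}`, that is, the proportion, among all `d`-tuples of sequences of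
`n` steps from `S ∪ {1}`, of those whose endpoints satisfy `w`. -/
noncomputable def lazyProb {G : Type} [Group G] (S : Set G) {d : ℕ} (w : FreeGroup (Fin d))
    (n : ℕ) : ℝ :=
  (Nat.card {s : Fin d → Fin n → ↥(insert (1 : G) S) //
      FreeGroup.lift (fun i => endpoint (s i)) w = 1} : ℝ) /
    (Nat.card (Fin d → Fin n → ↥(insert (1 : G) S)) : ℝ)

end Pool.Agent.Helper78.LazyWalk
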