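import Mathlib

/-!
Local bound for sums of independent steps in an abelian group: the number of
length `n` sequences of steps with a prescribed sum is `O(N^n / n^(m/2))` when the
step set contains `0` and `m` independent vectors.
-/

open Finset

namespace Pool.Agent.Helper78.LocalBound

variable {V : Type*} [AddCommGroup V]

/-- translation operator on functions -/
noncomputable def sh (v : V) : Module.End ℝ (V → ℝ) := LinearMap.funLeft ℝ ℝ (fun x => x + v)

lemma sh_apply (v : V) (f : V → ℝ) (x : V) : sh v f x = f (x + v) := rfl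

lemma sh_mul (v w : V) : sh v * sh w = sh (v + w) := by
  ext f x
  simp [sh_apply, Module.End.mul_apply, add_assoc]

lemma sh_zero : sh (0 : V) = 1 := by
  ext f x
  simp [sh_apply]

lemma sh_comm (v w : V) : Commute (sh v) (sh w) := by
  show sh v * sh w = sh w * sh v
  rw [sh_mul, sh_mul, add_comm]

lemma sh_pow (v : V) (n : ℕ) : sh v ^ n = sh (n • v) := by
  induction n with
  | zero => simp [sh_zero]
  | succ n ih => rw [pow_succ, ih, sh_mul, succ_nsmul]

/-- the operator adding a step from the finite family `T` -/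
noncomputable def stepOp {ι : Type*} (T : Finset ι) (p : ι → V) : Module.End ℝ (V → ℝ) :=
  ∑ s ∈ T, sh (p s)

lemma stepOp_apply {ι : Type*} (T : Finset ι) (p : ι → V) (f : V → ℝ) (x : V) :
    stepOp T p f x = ∑ s ∈ T, f (x + p s) := by
  simp [stepOp, LinearMap.sum_apply, Finset.sum_apply, sh_apply]

lemma stepOp_nonneg {ι : Type*} (T : Finset ι) (p : ι → V) (f : V → ℝ) (hf : ∀ x, 0 ≤ f x) (x : V) :
    0 ≤ stepOp T p f x := by
  rw [stepOp_apply]
  exact Finset.sum_nonneg (fun s _ => hf _)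

lemma stepOp_pow_nonneg {ι : Type*} (T : Finset ι) (p : ι → V) (f : V → ℝ) (hf : ∀ x, 0 ≤ f x)
    (n : ℕ) : ∀ x, 0 ≤ (stepOp T p ^ n) f x := by
  induction n with
  | zero => intro x; simpa using hf x
  | succ n ih =>
    intro x
    rw [pow_succ', Module.End.mul_apply]
    exact stepOp_nonneg T p _ ih x

/-- iterating the rest operator multiplies bounds on all translates by its mass -/
lemma stepOp_pow_sum_le {ι : Type*} {C : Type*} [Fintype C] (T : Finset ι) (p : ι → V) (u : C → V)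
    (h : V → ℝ) (B : ℝ) (hB : ∀ x, ∑ c, h (x + u c) ≤ B) (n : ℕ) :
    ∀ x, ∑ c, ((stepOp T p ^ n) h) (x + u c) ≤ (T.card : ℝ) ^ n * B := by
  induction n with
  | zero => intro x; simpa using hB x
  | succ n ih =>
    intro x
    rw [pow_succ']
    simp only [Module.End.mul_apply, stepOp_apply]
    rw [Finset.sum_comm]
    calc ∑ s ∈ T, ∑ c, ((stepOp T p ^ n) h) (x + u c + p s)
        = ∑ s ∈ T, ∑ c, ((stepOp T p ^ n) h) ((x + p s) + u c) := by
          refine Finset.sum_congr rfl (fun s _ => Finset.sum_congr rfl (fun c _ => ?_))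
          rw [add_right_comm]
      _ ≤ ∑ s ∈ T, (T.card : ℝ) ^ n * B := Finset.sum_le_sum (fun s _ => ih _)
      _ = (T.card : ℝ) ^ (n + 1) * B := by
          rw [Finset.sum_const, nsmul_eq_mul, pow_succ]; ring

/-- the coin operator: `(1 + sh v)^j` -/
lemma coin_pow_apply (v : V) (j : ℕ) (f : V → ℝ) (x : V) :
    (((1 : Module.End ℝ (V → ℝ)) + sh v) ^ j) f x = ∑ c ∈ range (j + 1), (j.choose c : ℝ) * f (x + c • v) := by
  rw [add_comm, (Commute.one_right (sh v)).add_pow]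
  rw [LinearMap.sum_apply, Finset.sum_apply]
  refine Finset.sum_congr rfl (fun c _ => ?_)
  rw [one_pow, mul_one, sh_pow, ← nsmul_eq_mul', LinearMap.smul_apply, Pi.smul_apply, sh_apply,
    nsmul_eq_mul]

lemma coin_pow_le (v : V) (j k : ℕ) (hjk : j ≤ k) (f : V → ℝ) (hf : ∀ x, 0 ≤ f x) (x : V) :
    (((1 : Module.End ℝ (V → ℝ)) + sh v) ^ j) f x ≤
      (j.choose (j / 2) : ℝ) * ∑ c ∈ range (k + 1), f (x + c • v) := by
  rw [coin_pow_apply, Finset.mul_sum]
  calc ∑ c ∈ range (j + 1), (j.choose c : ℝ) * f (x + c • v)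
      ≤ ∑ c ∈ range (j + 1), (j.choose (j / 2) : ℝ) * f (x + c • v) := by
        refine Finset.sum_le_sum (fun c _ => ?_)
        exact mul_le_mul_of_nonneg_right (by exact_mod_cast Nat.choose_le_middle c j) (hf _)
    _ ≤ ∑ c ∈ range (k + 1), (j.choose (j / 2) : ℝ) * f (x + c • v) := by
        refine Finset.sum_le_sum_of_subset_of_nonneg ?_ (fun c _ _ => ?_)
        · intro c hc
          simp only [Finset.mem_range] at hc ⊢
          omega
        · exact mul_nonneg (by positivity) (hf _)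

/-- the block factor -/
noncomputable def beta (N k : ℕ) : ℝ :=
  ∑ j ∈ range (k + 1), (k.choose j : ℝ) * (j.choose (j / 2) : ℝ) * ((N - 2 : ℕ) : ℝ) ^ (k - j)

lemma beta_nonneg (N k : ℕ) : 0 ≤ beta N k := by
  unfold beta
  positivity

/-- one block -/
lemma one_block {ι : Type*} [DecidableEq ι] {C : Type*} [Fintype C] (T : Finset ι) (p : ι → V)
    (s0 s1 : ι) (h0 : s0 ∈ T) (h1 : s1 ∈ T) (hne : s0 ≠ s1) (hp0 : p s0 = 0) (u : C → V) (k : ℕ)
    (g : V → ℝ) (hg : ∀ x, 0 ≤ g x) (B : ℝ)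
    (hB : ∀ x, ∑ c, ∑ c' : Fin (k + 1), g (x + u c + (c' : ℕ) • p s1) ≤ B) :
    ∀ x, ∑ c, ((stepOp T p ^ k) g) (x + u c) ≤ beta T.card k * B := by
  intro x
  set R : Finset ι := (T.erase s0).erase s1 with hR
  have hRcard : R.card = T.card - 2 := by
    rw [hR, Finset.card_erase_of_mem, Finset.card_erase_of_mem h0]
    · omega
    · exact Finset.mem_erase.mpr ⟨hne.symm, h1⟩
  have hsplit : stepOp T p = (1 + sh (p s1)) + stepOp R p := by
    unfold stepOp
    rw [← Finset.add_sum_erase T _ h0, ← Finset.add_sum_erase (T.erase s0) _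
      (Finset.mem_erase.mpr ⟨hne.symm, h1⟩), hp0, sh_zero, ← add_assoc]
  have hcomm : Commute ((1 : Module.End ℝ (V → ℝ)) + sh (p s1)) (stepOp R p) := by
    unfold stepOp
    refine Commute.sum_right _ _ _ (fun s _ => ?_)
    exact (Commute.one_left _).add_left (sh_comm _ _)
  rw [hsplit, hcomm.add_pow]
  have hexp : ∀ y, ((∑ j ∈ range (k + 1), (1 + sh (p s1)) ^ j * stepOp R p ^ (k - j) *
      ((k.choose j : ℕ) : Module.End ℝ (V → ℝ))) g) y =
      ∑ j ∈ range (k + 1), (k.choose j : ℝ) *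
        ((stepOp R p ^ (k - j)) (((1 + sh (p s1)) ^ j) g)) y := by
    intro y
    rw [LinearMap.sum_apply, Finset.sum_apply]
    refine Finset.sum_congr rfl (fun j _ => ?_)
    rw [← nsmul_eq_mul', LinearMap.smul_apply, Pi.smul_apply, nsmul_eq_mul,
      ((hcomm.pow_pow j (k - j))).eq, Module.End.mul_apply]
  simp only [hexp]
  rw [Finset.sum_comm]
  unfold beta
  rw [Finset.sum_mul]
  refine Finset.sum_le_sum (fun j hj => ?_)
  rw [← Finset.mul_sum]
  have hjk : j ≤ k := by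
    have := Finset.mem_range.mp hj
    omega
  have hkey := stepOp_pow_sum_le R p u (((1 + sh (p s1)) ^ j) g) ((j.choose (j / 2) : ℝ) * B)
    (by
      intro y
      calc ∑ c, (((1 : Module.End ℝ (V → ℝ)) + sh (p s1)) ^ j) g (y + u c)
          ≤ ∑ c, (j.choose (j / 2) : ℝ) * ∑ c' ∈ range (k + 1), g (y + u c + c' • p s1) :=
            Finset.sum_le_sum (fun c _ => coin_pow_le _ j k hjk g hg _)
        _ = (j.choose (j / 2) : ℝ) * ∑ c, ∑ c' : Fin (k + 1), g (y + u c + (c' : ℕ) • p s1) := by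
            rw [Finset.mul_sum]
            refine Finset.sum_congr rfl (fun c _ => ?_)
            rw [Finset.sum_range]
        _ ≤ (j.choose (j / 2) : ℝ) * B := by
            exact mul_le_mul_of_nonneg_left (hB y) (by positivity)) (k - j) x
  rw [hRcard] at hkey
  calc (k.choose j : ℝ) * ∑ c, ((stepOp R p ^ (k - j)) (((1 + sh (p s1)) ^ j) g)) (x + u c)
      ≤ (k.choose j : ℝ) * (((T.card - 2 : ℕ) : ℝ) ^ (k - j) * ((j.choose (j / 2) : ℝ) * B)) :=
        mul_le_mul_of_nonneg_left hkey (by positivity)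
    _ = (k.choose j : ℝ) * (j.choose (j / 2) : ℝ) * ((T.card - 2 : ℕ) : ℝ) ^ (k - j) * B := by ring

/-- `m` blocks -/
lemma blocks {ι : Type*} [DecidableEq ι] (T : Finset ι) (p : ι → V)
    (s0 : ι) (h0 : s0 ∈ T) (hp0 : p s0 = 0) (k : ℕ) (f : V → ℝ) (hf : ∀ x, 0 ≤ f x) :
    ∀ (m : ℕ) (s : Fin m → ι) (_hs : ∀ i, s i ∈ T ∧ s i ≠ s0) (C : Type) [Fintype C] (u : C → V) (B : ℝ),
    (∀ x, ∑ c, ∑ a : Fin m → Fin (k + 1), f (x + u c + ∑ i, ((a i : ℕ)) • p (s i)) ≤ B) →
    ∀ x, ∑ c, ((stepOp T p ^ (k * m)) f) (x + u c) ≤ beta T.card k ^ m * B := by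
  intro m
  induction m with
  | zero =>
    intro s hs C _ u B hB x
    simpa using hB x
  | succ m ih =>
    intro s hs C _ u B hB x
    have h1 := one_block T p s0 (s 0) h0 (hs 0).1 (hs 0).2.symm hp0 u k
      ((stepOp T p ^ (k * m)) f) (stepOp_pow_nonneg T p f hf _) (beta T.card k ^ m * B)
      (by
        intro y
        have h2 := ih (fun i => s i.succ) (fun i => hs i.succ) (C × Fin (k + 1))
          (fun c => u c.1 + (c.2 : ℕ) • p (s 0)) B
          (by
            intro z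
            rw [Fintype.sum_prod_type]
            refine le_trans (le_of_eq ?_) (hB z)
            refine Finset.sum_congr rfl (fun c _ => ?_)
            rw [← (Fin.consEquiv (fun _ : Fin (m + 1) => Fin (k + 1))).sum_comp, Fintype.sum_prod_type]
            refine Finset.sum_congr rfl (fun c' _ => Finset.sum_congr rfl (fun a _ => ?_))
            congr 1
            rw [Fin.sum_univ_succ]
            simp only [Fin.consEquiv_apply, Fin.cons_zero, Fin.cons_succ]
            abel) y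
        rw [Fintype.sum_prod_type] at h2
        simpa [add_assoc] using h2) x
    have h3 : k * (m + 1) = k + k * m := by ring
    rw [h3, pow_add]
    simp only [Module.End.mul_apply]
    refine h1.trans (le_of_eq ?_)
    ring

/-- counting operator: the iterated step operator counts sequences -/
lemma stepOp_pow_apply {ι : Type*} (T : Finset ι) (p : ι → V) (f : V → ℝ) (n : ℕ) :
    ∀ x, (stepOp T p ^ n) f x = ∑ t : Fin n → T, f (x + ∑ i, p (t i)) := by
  induction n with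
  | zero => intro x; simp
  | succ n ih =>
    intro x
    rw [pow_succ', Module.End.mul_apply, stepOp_apply]
    rw [← (Fin.consEquiv (fun _ : Fin (n + 1) => (T : Finset ι))).sum_comp, Fintype.sum_prod_type]
    rw [← Finset.sum_coe_sort T]
    refine Finset.sum_congr rfl (fun s _ => ?_)
    rw [ih]
    refine Finset.sum_congr rfl (fun t _ => ?_)
    congr 1
    rw [Fin.sum_univ_succ]
    simp only [Fin.consEquiv_apply, Fin.cons_zero, Fin.cons_succ]
    abel

lemma centralBinom_sq (n : ℕ) : (n.centralBinom : ℝ) ^ 2 * (2 * n + 1) ≤ 16 ^ n := by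
  induction n with
  | zero => simp
  | succ n ih =>
    have h := Nat.succ_mul_centralBinom_succ n
    have h' : ((n : ℝ) + 1) * ((n + 1).centralBinom : ℝ) = 2 * (2 * n + 1) * (n.centralBinom : ℝ) := by
      exact_mod_cast h
    have hn : (0 : ℝ) < (n : ℝ) + 1 := by positivity
    have h2 : ((n + 1).centralBinom : ℝ) = 2 * (2 * n + 1) * (n.centralBinom : ℝ) / ((n : ℝ) + 1) := by
      field_simp
      linarith
    rw [h2, div_pow, div_mul_eq_mul_div, div_le_iff₀ (by positivity)]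
    push_cast
    have h3 : (2 * (2 * (n : ℝ) + 1) * (n.centralBinom : ℝ)) ^ 2 * (2 * ((n : ℝ) + 1) + 1)
        = ((n.centralBinom : ℝ) ^ 2 * (2 * n + 1)) * (4 * (2 * n + 1) * (2 * n + 3)) := by ring
    rw [h3]
    calc ((n.centralBinom : ℝ) ^ 2 * (2 * n + 1)) * (4 * (2 * n + 1) * (2 * n + 3))
        ≤ 16 ^ n * (4 * (2 * n + 1) * (2 * n + 3)) := by
          apply mul_le_mul_of_nonneg_right ih (by positivity)
      _ ≤ 16 ^ (n + 1) * ((n : ℝ) + 1) ^ 2 := by
          rw [pow_succ]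
          have : (4 * (2 * (n : ℝ) + 1) * (2 * n + 3)) ≤ 16 * ((n : ℝ) + 1) ^ 2 := by nlinarith
          nlinarith [pow_pos (show (0 : ℝ) < 16 by norm_num) n]

lemma choose_middle_sq (j : ℕ) : (j.choose (j / 2) : ℝ) ^ 2 * (j + 1) ≤ 4 ^ j := by
  rcases Nat.even_or_odd' j with ⟨n, rfl | rfl⟩
  · have h := centralBinom_sq n
    rw [Nat.centralBinom_eq_two_mul_choose] at h
    have h2 : 2 * n / 2 = n := by omega
    rw [h2, pow_mul]
    norm_num
    exact h
  · have h := centralBinom_sq (n + 1)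
    have h2 : (2 * n + 1) / 2 = n := by omega
    rw [h2]
    have h3 : (n + 1).centralBinom = 2 * (2 * n + 1).choose n := by
      rw [Nat.centralBinom_eq_two_mul_choose]
      have : 2 * (n + 1) = (2 * n + 1) + 1 := by ring
      rw [this, Nat.choose_succ_succ]
      have h4 : (2 * n + 1).choose n.succ = (2 * n + 1).choose n := Nat.choose_symm_half n
      omega
    rw [h3] at h
    push_cast at h ⊢
    have h5 : (4 : ℝ) ^ (2 * n + 1) = 4 * 16 ^ n := by
      rw [pow_succ, pow_mul]; norm_num; ring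
    have h6 : (16 : ℝ) ^ (n + 1) = 16 * 16 ^ n := by ring
    rw [h5]
    rw [h6] at h
    nlinarith [sq_nonneg ((2 * n + 1).choose n : ℝ)]

/-- the block factor is `O(N^k / sqrt k)` -/
lemma beta_sq_le (N k : ℕ) (hN : 2 ≤ N) :
    beta N k ^ 2 ≤ (N : ℝ) ^ (2 * k) * ((N : ℝ) / (2 * (k + 1))) := by
  have hN' : ((N - 2 : ℕ) : ℝ) = (N : ℝ) - 2 := by
    rw [Nat.cast_sub hN]; norm_num
  have hN2 : (2 : ℝ) ≤ N := by exact_mod_cast hN
  set M : ℝ := ((N - 2 : ℕ) : ℝ) with hM
  have hM0 : 0 ≤ M := by positivity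
  -- weights
  have hw : ∑ j ∈ range (k + 1), (k.choose j : ℝ) * 2 ^ j * M ^ (k - j) = (N : ℝ) ^ k := by
    have : (N : ℝ) = 2 + M := by linarith
    rw [this, add_pow]
    exact Finset.sum_congr rfl (fun j _ => by ring)
  have hw2 : ∑ j ∈ range (k + 1), (k.choose j : ℝ) * 2 ^ j * M ^ (k - j) * (1 / ((j : ℝ) + 1))
      ≤ (N : ℝ) ^ (k + 1) / (2 * (k + 1)) := by
    have h1 : ∀ j ∈ range (k + 1), (k.choose j : ℝ) * 2 ^ j * M ^ (k - j) * (1 / ((j : ℝ) + 1))
        = (1 / (2 * ((k : ℝ) + 1))) * (((k + 1).choose (j + 1) : ℝ) * 2 ^ (j + 1) * M ^ (k + 1 - (j + 1))) := by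
      intro j hj
      have h2 : ((k + 1).choose (j + 1) : ℝ) * ((j : ℝ) + 1) = ((k : ℝ) + 1) * (k.choose j : ℝ) := by
        have := Nat.add_one_mul_choose_eq k j
        have h3 : ((k : ℝ) + 1) * (k.choose j : ℝ) = ((k + 1).choose (j + 1) : ℝ) * ((j : ℝ) + 1) := by
          exact_mod_cast this
        exact h3.symm
      have h4 : k + 1 - (j + 1) = k - j := by omega
      rw [h4]
      have hk : (0 : ℝ) < (k : ℝ) + 1 := by positivity
      have hj : (0 : ℝ) < (j : ℝ) + 1 := by positivity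
      have h5 : ((k + 1).choose (j + 1) : ℝ) = ((k : ℝ) + 1) * (k.choose j : ℝ) / ((j : ℝ) + 1) := by
        field_simp
        linarith
      rw [h5]
      field_simp
      ring
    rw [Finset.sum_congr rfl h1, ← Finset.mul_sum]
    have h6 : ∑ j ∈ range (k + 1), (((k + 1).choose (j + 1) : ℝ) * 2 ^ (j + 1) * M ^ (k + 1 - (j + 1)))
        ≤ (N : ℝ) ^ (k + 1) := by
      have h7 : (N : ℝ) = 2 + M := by linarith
      rw [h7, add_pow, Finset.sum_range_succ' _ (k + 1)]
      have h8 : (0 : ℝ) ≤ 2 ^ 0 * M ^ (k + 1 - 0) * ((k + 1).choose 0 : ℝ) := by positivity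
      have h9 : ∑ j ∈ range (k + 1), (((k + 1).choose (j + 1) : ℝ) * 2 ^ (j + 1) * M ^ (k + 1 - (j + 1)))
          = ∑ j ∈ range (k + 1), ((2 : ℝ) ^ (j + 1) * M ^ (k + 1 - (j + 1)) * ((k + 1).choose (j + 1) : ℝ)) :=
        Finset.sum_congr rfl (fun j _ => by ring)
      rw [h9]
      linarith
    calc 1 / (2 * ((k : ℝ) + 1)) * ∑ j ∈ range (k + 1), (((k + 1).choose (j + 1) : ℝ) * 2 ^ (j + 1) * M ^ (k + 1 - (j + 1)))
        ≤ 1 / (2 * ((k : ℝ) + 1)) * (N : ℝ) ^ (k + 1) := by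
          apply mul_le_mul_of_nonneg_left h6 (by positivity)
      _ = (N : ℝ) ^ (k + 1) / (2 * (k + 1)) := by ring
  -- Cauchy-Schwarz
  have hCS := Finset.sum_mul_sq_le_sq_mul_sq (range (k + 1))
    (fun j => Real.sqrt ((k.choose j : ℝ) * 2 ^ j * M ^ (k - j)))
    (fun j => Real.sqrt ((k.choose j : ℝ) * 2 ^ j * M ^ (k - j) * (1 / ((j : ℝ) + 1))))
  have hb : beta N k ≤ ∑ j ∈ range (k + 1), Real.sqrt ((k.choose j : ℝ) * 2 ^ j * M ^ (k - j)) *
      Real.sqrt ((k.choose j : ℝ) * 2 ^ j * M ^ (k - j) * (1 / ((j : ℝ) + 1))) := by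
    unfold beta
    refine Finset.sum_le_sum (fun j _ => ?_)
    rw [← Real.sqrt_mul (by positivity)]
    apply Real.le_sqrt_of_sq_le
    have h1 := choose_middle_sq j
    have hj : (0 : ℝ) < (j : ℝ) + 1 := by positivity
    have h2 : (j.choose (j / 2) : ℝ) ^ 2 ≤ 4 ^ j * (1 / ((j : ℝ) + 1)) := by
      rw [mul_one_div, le_div_iff₀ hj]
      exact h1
    calc ((k.choose j : ℝ) * (j.choose (j / 2) : ℝ) * M ^ (k - j)) ^ 2
        = ((k.choose j : ℝ) * M ^ (k - j)) ^ 2 * (j.choose (j / 2) : ℝ) ^ 2 := by ring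
      _ ≤ ((k.choose j : ℝ) * M ^ (k - j)) ^ 2 * (4 ^ j * (1 / ((j : ℝ) + 1))) :=
          mul_le_mul_of_nonneg_left h2 (by positivity)
      _ = (k.choose j : ℝ) * 2 ^ j * M ^ (k - j) *
          ((k.choose j : ℝ) * 2 ^ j * M ^ (k - j) * (1 / ((j : ℝ) + 1))) := by
          have : (4 : ℝ) ^ j = 2 ^ j * 2 ^ j := by
            rw [← mul_pow]; norm_num
          rw [this]; ring
  have hsq1 : ∀ j ∈ range (k + 1), Real.sqrt ((k.choose j : ℝ) * 2 ^ j * M ^ (k - j)) ^ 2
      = (k.choose j : ℝ) * 2 ^ j * M ^ (k - j) := fun j _ => Real.sq_sqrt (by positivity)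
  have hsq2 : ∀ j ∈ range (k + 1),
      Real.sqrt ((k.choose j : ℝ) * 2 ^ j * M ^ (k - j) * (1 / ((j : ℝ) + 1))) ^ 2
      = (k.choose j : ℝ) * 2 ^ j * M ^ (k - j) * (1 / ((j : ℝ) + 1)) :=
    fun j _ => Real.sq_sqrt (by positivity)
  rw [Finset.sum_congr rfl hsq1, Finset.sum_congr rfl hsq2, hw] at hCS
  calc beta N k ^ 2 ≤ (∑ j ∈ range (k + 1), Real.sqrt ((k.choose j : ℝ) * 2 ^ j * M ^ (k - j)) *
      Real.sqrt ((k.choose j : ℝ) * 2 ^ j * M ^ (k - j) * (1 / ((j : ℝ) + 1)))) ^ 2 :=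
        pow_le_pow_left₀ (beta_nonneg N k) hb 2
    _ ≤ (N : ℝ) ^ k * ∑ j ∈ range (k + 1), (k.choose j : ℝ) * 2 ^ j * M ^ (k - j) * (1 / ((j : ℝ) + 1)) := hCS
    _ ≤ (N : ℝ) ^ k * ((N : ℝ) ^ (k + 1) / (2 * (k + 1))) :=
        mul_le_mul_of_nonneg_left hw2 (by positivity)
    _ = (N : ℝ) ^ (2 * k) * ((N : ℝ) / (2 * (k + 1))) := by
        rw [pow_succ, show 2 * k = k + k by ring, pow_add]; ring

/-- number of step sequences with a prescribed sum, block form -/
theorem count_le {ι : Type*} [DecidableEq ι] (T : Finset ι) (p : ι → V)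
    (s0 : ι) (h0 : s0 ∈ T) (hp0 : p s0 = 0) (m : ℕ) (s : Fin m → ι)
    (hs : ∀ i, s i ∈ T ∧ s i ≠ s0)
    (hli : Function.Injective (fun a : Fin m → ℕ => ∑ i, a i • p (s i))) (k r : ℕ) (q : V) :
    (Nat.card {t : Fin (r + k * m) → T // ∑ j, p (t j) = q} : ℝ) ≤
      (T.card : ℝ) ^ r * beta T.card k ^ m := by
  classical
  set f : V → ℝ := fun x => if x = q then 1 else 0 with hf
  have hf0 : ∀ x, 0 ≤ f x := by
    intro x; rw [hf]; dsimp only; split_ifs <;> norm_num
  have hcount : (Nat.card {t : Fin (r + k * m) → T // ∑ j, p (t j) = q} : ℝ) =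
      (stepOp T p ^ (r + k * m)) f 0 := by
    rw [stepOp_pow_apply, Nat.card_eq_fintype_card, Fintype.card_subtype, Finset.card_filter]
    push_cast
    refine Finset.sum_congr rfl (fun t _ => ?_)
    rw [hf]
    simp
  rw [hcount, pow_add, Module.End.mul_apply]
  have hblk := blocks T p s0 h0 hp0 k f hf0 m s hs Unit (fun _ => 0) 1 (by
    intro x
    simp only [Finset.univ_unique, Finset.sum_singleton, add_zero]
    have hle : ∀ a b : Fin m → Fin (k + 1), f (x + ∑ i, ((a i : ℕ)) • p (s i)) ≠ 0 →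
        f (x + ∑ i, ((b i : ℕ)) • p (s i)) ≠ 0 → a = b := by
      intro a b ha hb
      have ha' : x + ∑ i, ((a i : ℕ)) • p (s i) = q := by
        by_contra hne
        apply ha
        rw [hf]
        simp [hne]
      have hb' : x + ∑ i, ((b i : ℕ)) • p (s i) = q := by
        by_contra hne
        apply hb
        rw [hf]
        simp [hne]
      have h1 : ∑ i, ((a i : ℕ)) • p (s i) = ∑ i, ((b i : ℕ)) • p (s i) :=
        add_left_cancel (ha'.trans hb'.symm)
      have h2 := hli h1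
      funext i
      exact Fin.ext (congrFun h2 i)
    by_cases hex : ∃ a : Fin m → Fin (k + 1), f (x + ∑ i, ((a i : ℕ)) • p (s i)) ≠ 0
    · obtain ⟨a, ha⟩ := hex
      rw [Finset.sum_eq_single a]
      · rw [hf]; dsimp only; split_ifs <;> norm_num
      · intro b _ hba
        by_contra hb
        exact hba (hle b a hb ha)
      · intro h; exact absurd (Finset.mem_univ a) h
    · push Not at hex
      rw [Finset.sum_eq_zero (fun a _ => hex a)]
      norm_num)
  have h2 := stepOp_pow_sum_le T p (fun _ : Unit => (0 : V)) ((stepOp T p ^ (k * m)) f)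
    (beta T.card k ^ m * 1) hblk r 0
  simpa using h2

/-- for six independent steps: the local probabilities are `O(n^(-3))` -/
theorem count_le_six {ι : Type*} [DecidableEq ι] (T : Finset ι) (p : ι → V)
    (s0 : ι) (h0 : s0 ∈ T) (hp0 : p s0 = 0) (s : Fin 6 → ι)
    (hs : ∀ i, s i ∈ T ∧ s i ≠ s0)
    (hli : Function.Injective (fun a : Fin 6 → ℕ => ∑ i, a i • p (s i))) (n : ℕ) (hn : 0 < n) (q : V) :
    (Nat.card {t : Fin n → T // ∑ j, p (t j) = q} : ℝ) ≤
      (T.card : ℝ) ^ n * (3 * T.card / n) ^ 3 := by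
  have hN : 2 ≤ T.card := by
    have h1 : 1 < T.card := Finset.one_lt_card.mpr ⟨s0, h0, s 0, (hs 0).1, (hs 0).2.symm⟩
    omega
  obtain ⟨k, r, hr, hdiv⟩ : ∃ k r : ℕ, r < 6 ∧ n = r + k * 6 :=
    ⟨n / 6, n % 6, Nat.mod_lt _ (by norm_num), by omega⟩
  have h1 := count_le T p s0 h0 hp0 6 s hs hli k r q
  have hnpos : (0 : ℝ) < n := by exact_mod_cast hn
  have h5 : (n : ℝ) ≤ 6 * ((k : ℝ) + 1) := by
    have : n ≤ 6 * (k + 1) := by omega
    exact_mod_cast this
  have hpow : (T.card : ℝ) ^ r * ((T.card : ℝ) ^ (2 * k)) ^ 3 = (T.card : ℝ) ^ n := by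
    rw [← pow_mul, ← pow_add]
    congr 1
    omega
  rw [← hdiv] at h1
  clear hdiv
  refine h1.trans ?_
  have h2 := beta_sq_le T.card k hN
  have hT : (0 : ℝ) ≤ T.card := Nat.cast_nonneg _
  have hk : (0 : ℝ) < 2 * ((k : ℝ) + 1) := by positivity
  have h3 : beta T.card k ^ 6 ≤
      ((T.card : ℝ) ^ (2 * k) * ((T.card : ℝ) / (2 * ((k : ℝ) + 1)))) ^ 3 := by
    have : beta T.card k ^ 6 = (beta T.card k ^ 2) ^ 3 := by rw [← pow_mul]
    rw [this]
    exact pow_le_pow_left₀ (sq_nonneg _) h2 3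
  have h4 : (T.card : ℝ) / (2 * ((k : ℝ) + 1)) ≤ 3 * T.card / n := by
    rw [div_le_div_iff₀ hk hnpos]
    nlinarith
  have h6 : (0 : ℝ) ≤ (T.card : ℝ) / (2 * ((k : ℝ) + 1)) := div_nonneg hT hk.le
  calc (T.card : ℝ) ^ r * beta T.card k ^ 6
      ≤ (T.card : ℝ) ^ r *
        ((T.card : ℝ) ^ (2 * k) * ((T.card : ℝ) / (2 * ((k : ℝ) + 1)))) ^ 3 :=
        mul_le_mul_of_nonneg_left h3 (pow_nonneg hT _)
    _ ≤ (T.card : ℝ) ^ r * ((T.card : ℝ) ^ (2 * k) * (3 * T.card / n)) ^ 3 := by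
        apply mul_le_mul_of_nonneg_left _ (pow_nonneg hT _)
        apply pow_le_pow_left₀ (mul_nonneg (pow_nonneg hT _) h6)
        exact mul_le_mul_of_nonneg_left h4 (pow_nonneg hT _)
    _ = (T.card : ℝ) ^ n * (3 * T.card / n) ^ 3 := by
        rw [mul_pow, ← mul_assoc, hpow]

end Pool.Agent.Helper78.LocalBound
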