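import Mathlib

namespace Pool.Agent.Helper78.Ramsey

/-- `Forces G s`: every 2-colouring of the edges of `G` contains a monochromatic clique of size `s`,
that is, a set `S` of `s` pairwise adjacent vertices all of whose edges receive the same colour.
(A 2-colouring is given as a Boolean function on unordered pairs; its values off the edges of `G`
play no role.) -/
def Forces {V : Type} (G : SimpleGraph V) (s : ℕ) : Prop :=
  ∀ c : Sym2 V → Bool, ∃ (S : Finset V) (col : Bool),
    G.IsNClique s S ∧ ∀ x ∈ S, ∀ y ∈ S, x ≠ y → c s(x, y) = col

/-- `r(m)`: the largest `r` such that every 2-colouring of the edges of the complete graph on `m`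
vertices contains a monochromatic clique of size `r`. -/
noncomputable def r (m : ℕ) : ℕ := sSup {s : ℕ | Forces (⊤ : SimpleGraph (Fin m)) s}

end Pool.Agent.Helper78.Ramsey
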