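import Mathlib
import Pool.Agent.Helper78.RamseyDefs

open Finset

namespace Pool.Agent.Helper78.Ramsey

/-! ### Basic facts on `Forces` and `r` -/

lemma Forces.mono {V : Type} {G : SimpleGraph V} {s t : ℕ} (h : Forces G s) (hts : t ≤ s) :
    Forces G t := by
  intro c
  obtain ⟨S, col, hS, hc⟩ := h c
  obtain ⟨T, hTS, hT⟩ := Finset.exists_subset_card_eq (s := S) (n := t) (by rw [hS.card_eq]; exact hts)
  refine ⟨T, col, ⟨hS.isClique.subset (by exact_mod_cast hTS), hT⟩, ?_⟩
  intro x hx y hy hxy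
  exact hc x (hTS hx) y (hTS hy) hxy

lemma forces_zero {V : Type} (G : SimpleGraph V) : Forces G 0 := by
  intro c
  refine ⟨∅, true, ⟨by simp, by simp⟩, by simp⟩

lemma Forces.le_card {m s : ℕ} (h : Forces (⊤ : SimpleGraph (Fin m)) s) : s ≤ m := by
  obtain ⟨S, _, hS, _⟩ := h (fun _ => true)
  rw [← hS.card_eq]
  simpa using Finset.card_le_univ S

lemma bddAbove_forces (m : ℕ) : BddAbove {s : ℕ | Forces (⊤ : SimpleGraph (Fin m)) s} :=
  ⟨m, fun _ hs => Forces.le_card hs⟩

lemma forces_r (m : ℕ) : Forces (⊤ : SimpleGraph (Fin m)) (r m) :=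
  Nat.sSup_mem ⟨0, forces_zero _⟩ (bddAbove_forces m)

lemma le_r {m s : ℕ} (h : Forces (⊤ : SimpleGraph (Fin m)) s) : s ≤ r m :=
  le_csSup (bddAbove_forces m) h

/-- a monochromatic clique of size `s` of colour `col` inside `W` -/
def HasMono {V : Type} (G : SimpleGraph V) (c : Sym2 V → Bool) (W : Finset V) (s : ℕ)
    (col : Bool) : Prop :=
  ∃ S : Finset V, S ⊆ W ∧ G.IsNClique s S ∧ ∀ x ∈ S, ∀ y ∈ S, x ≠ y → c s(x, y) = col

lemma HasMono.zero {V : Type} (G : SimpleGraph V) (c : Sym2 V → Bool) (W : Finset V) (col : Bool) :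
    HasMono G c W 0 col :=
  ⟨∅, by simp, ⟨by simp, by simp⟩, by simp⟩

lemma HasMono.subset {V : Type} {G : SimpleGraph V} {c : Sym2 V → Bool} {W W' : Finset V} {s : ℕ}
    {col : Bool} (h : HasMono G c W s col) (hW : W ⊆ W') : HasMono G c W' s col := by
  obtain ⟨S, hS, h1, h2⟩ := h
  exact ⟨S, hS.trans hW, h1, h2⟩

lemma HasMono.le {V : Type} {G : SimpleGraph V} {c : Sym2 V → Bool} {W : Finset V} {s t : ℕ}
    {col : Bool} (h : HasMono G c W s col) (hts : t ≤ s) : HasMono G c W t col := by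
  obtain ⟨S, hS, h1, h2⟩ := h
  obtain ⟨T, hTS, hT⟩ := Finset.exists_subset_card_eq (s := S) (n := t) (by rw [h1.card_eq]; exact hts)
  refine ⟨T, hTS.trans hS, ⟨h1.isClique.subset (by exact_mod_cast hTS), hT⟩, ?_⟩
  intro x hx y hy hxy
  exact h2 x (hTS hx) y (hTS hy) hxy

lemma HasMono.cons {V : Type} [DecidableEq V] {G : SimpleGraph V} {c : Sym2 V → Bool} {R W : Finset V}
    {s : ℕ} {col : Bool} {v : V} (h : HasMono G c R s col) (hv : v ∈ W) (hR : R ⊆ W)
    (hadj : ∀ u ∈ R, G.Adj v u ∧ c s(v, u) = col) : HasMono G c W (s + 1) col := by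
  obtain ⟨S, hS, h1, h2⟩ := h
  have hvS : v ∉ S := fun hvS => G.loopless.irrefl v (hadj v (hS hvS)).1
  refine ⟨insert v S, ?_, ?_, ?_⟩
  · intro x hx
    rcases Finset.mem_insert.mp hx with rfl | hx
    · exact hv
    · exact hR (hS hx)
  · exact h1.insert (fun u hu => (hadj u (hS hu)).1)
  · intro x hx y hy hxy
    rcases Finset.mem_insert.mp hx with rfl | hx' <;> rcases Finset.mem_insert.mp hy with rfl | hy'
    · exact absurd rfl hxy
    · exact (hadj y (hS hy')).2
    · rw [Sym2.eq_swap]; exact (hadj x (hS hx')).2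
    · exact h2 x hx' y hy' hxy

/-- cliques of size `L` of `G` contain monochromatic cliques of any size forced by `K_L` -/
lemma hasMono_of_clique {V : Type} [DecidableEq V] {G : SimpleGraph V} (c : Sym2 V → Bool) {L s : ℕ}
    (hL : Forces (⊤ : SimpleGraph (Fin L)) s) {W Q : Finset V} (hQ : G.IsNClique L Q) (hQW : Q ⊆ W) :
    ∃ col, HasMono G c W s col := by
  have e : Fin L ≃ Q := (Finset.equivFinOfCardEq hQ.card_eq).symm
  obtain ⟨S, col, hS, hc⟩ := hL (fun p => c (p.map (fun i => ((e i : Q) : V))))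
  have hinj : Function.Injective (fun i : Fin L => ((e i : Q) : V)) :=
    Subtype.val_injective.comp e.injective
  refine ⟨col, S.map ⟨fun i => ((e i : Q) : V), hinj⟩, ?_, ⟨?_, ?_⟩, ?_⟩
  · intro x hx
    obtain ⟨i, _, rfl⟩ := Finset.mem_map.mp hx
    exact hQW (e i).2
  · intro x hx y hy hxy
    rw [Finset.mem_coe] at hx hy
    obtain ⟨i, _, rfl⟩ := Finset.mem_map.mp hx
    obtain ⟨j, _, rfl⟩ := Finset.mem_map.mp hy
    exact hQ.isClique (by exact_mod_cast (e i).2) (by exact_mod_cast (e j).2) hxy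
  · rw [Finset.card_map]; exact hS.card_eq
  · intro x hx y hy hxy
    obtain ⟨i, hi, rfl⟩ := Finset.mem_map.mp hx
    obtain ⟨j, hj, rfl⟩ := Finset.mem_map.mp hy
    have hij : i ≠ j := fun h => hxy (by rw [h])
    exact hc i hi j hj hij

lemma r_mono {m m' : ℕ} (h : m ≤ m') : r m ≤ r m' := by
  apply le_r
  intro c
  have hQ : (⊤ : SimpleGraph (Fin m')).IsNClique m
      ((Finset.univ : Finset (Fin m)).map (Fin.castLEEmb h)) := by
    refine ⟨?_, by simp⟩
    intro x _ y _ hxy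
    exact hxy
  obtain ⟨col, S, _, h1, h2⟩ := hasMono_of_clique c (forces_r m) hQ (Finset.subset_univ _)
  exact ⟨S, col, h1, h2⟩

/-! ### Graphs with sparse complement -/

/-- every nonempty vertex set `W` has a vertex adjacent to at least `(1-lam)|W| - D` of `W` -/
def NearComplete {V : Type} [DecidableEq V] (G : SimpleGraph V) [DecidableRel G.Adj] (lam D : ℝ) : Prop :=
  ∀ W : Finset V, W.Nonempty → ∃ v ∈ W, (1 - lam) * (W.card : ℝ) - D ≤ ((W.filter (G.Adj v)).card : ℝ)

variable {V : Type} [DecidableEq V] {G : SimpleGraph V} [DecidableRel G.Adj] {lam D : ℝ}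

lemma exists_clique_aux (hG : NearComplete G lam D) (hlam : 0 ≤ lam) (hD : 1 ≤ D) (w0 : ℕ) (L : ℕ) :
    ∀ W : Finset V, W.card ≤ w0 → (L : ℝ) * (lam * w0 + D) ≤ (W.card : ℝ) →
      ∃ Q ⊆ W, G.IsNClique L Q := by
  induction L with
  | zero =>
    intro W _ _
    exact ⟨∅, by simp, ⟨by simp, by simp⟩⟩
  | succ L ih =>
    intro W hW h
    have hpos : 0 < lam * w0 + D := by positivity
    have hWpos : 0 < W.card := by
      by_contra hcon
      have h0 : W.card = 0 := by omega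
      rw [h0] at h
      push_cast at h
      have : 0 < ((L : ℝ) + 1) * (lam * w0 + D) := by positivity
      linarith
    obtain ⟨v, hv, hvd⟩ := hG W (Finset.card_pos.mp hWpos)
    have hsub : W.filter (G.Adj v) ⊆ W := Finset.filter_subset _ _
    have hle : (W.card : ℝ) ≤ w0 := by exact_mod_cast hW
    have h2 : (L : ℝ) * (lam * w0 + D) ≤ ((W.filter (G.Adj v)).card : ℝ) := by
      push_cast at h
      have h3 : lam * (W.card : ℝ) ≤ lam * w0 := mul_le_mul_of_nonneg_left hle hlam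
      nlinarith
    obtain ⟨Q, hQ, hQc⟩ := ih (W.filter (G.Adj v)) ((Finset.card_le_card hsub).trans hW) h2
    refine ⟨insert v Q, ?_, hQc.insert (fun u hu => (Finset.mem_filter.mp (hQ hu)).2)⟩
    intro x hx
    rcases Finset.mem_insert.mp hx with rfl | hx
    · exact hv
    · exact hsub (hQ hx)

lemma exists_clique (hG : NearComplete G lam D) (hlam : 0 ≤ lam) (hD : 1 ≤ D) (w0 L : ℕ)
    (hL : (L : ℝ) * (lam * w0 + D) ≤ w0) (W : Finset V) (hW : w0 ≤ W.card) :
    ∃ Q ⊆ W, G.IsNClique L Q := by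
  obtain ⟨W', hW', hc⟩ := Finset.exists_subset_card_eq hW
  obtain ⟨Q, hQ, h⟩ := exists_clique_aux hG hlam hD w0 L W' hc.le (by rw [hc]; exact hL)
  exact ⟨Q, hQ.trans hW', h⟩

/-- one Erdős–Szekeres step -/
lemma step (hG : NearComplete G lam D) (c : Sym2 V → Bool) (W : Finset V) (hW : W.Nonempty)
    (X Y : ℝ) (h : X + Y ≤ (1 - lam) * W.card - D) :
    (∃ v ∈ W, ∃ R ⊆ W, X ≤ (R.card : ℝ) ∧ ∀ u ∈ R, G.Adj v u ∧ c s(v, u) = true) ∨
    (∃ v ∈ W, ∃ R ⊆ W, Y ≤ (R.card : ℝ) ∧ ∀ u ∈ R, G.Adj v u ∧ c s(v, u) = false) := by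
  obtain ⟨v, hv, hvd⟩ := hG W hW
  set A := W.filter (G.Adj v) with hA
  set R := A.filter (fun u => c s(v, u) = true) with hR
  set B := A.filter (fun u => ¬ c s(v, u) = true) with hB
  have hcard : R.card + B.card = A.card := Finset.card_filter_add_card_filter_not _
  have hRW : R ⊆ W := (Finset.filter_subset _ _).trans (Finset.filter_subset _ _)
  have hBW : B ⊆ W := (Finset.filter_subset _ _).trans (Finset.filter_subset _ _)
  have hsum : X + Y ≤ (R.card : ℝ) + B.card := by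
    have : ((R.card + B.card : ℕ) : ℝ) = A.card := by rw [hcard]
    push_cast at this
    rw [this]
    linarith
  by_cases hX : X ≤ (R.card : ℝ)
  · left
    refine ⟨v, hv, R, hRW, hX, fun u hu => ?_⟩
    rw [hR, Finset.mem_filter, hA, Finset.mem_filter] at hu
    exact ⟨hu.1.2, hu.2⟩
  · right
    push Not at hX
    refine ⟨v, hv, B, hBW, by linarith, fun u hu => ?_⟩
    rw [hB, Finset.mem_filter, hA, Finset.mem_filter] at hu
    exact ⟨hu.1.2, by simpa using hu.2⟩

/-- combine a step with recursion -/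
lemma step_rec (hG : NearComplete G lam D) (c : Sym2 V → Bool) (a b : ℕ) (W : Finset V)
    (hW : W.Nonempty) (X Y : ℝ) (h : X + Y ≤ (1 - lam) * W.card - D)
    (hX : ∀ R : Finset V, X ≤ (R.card : ℝ) → HasMono G c R a true ∨ HasMono G c R (b + 1) false)
    (hY : ∀ R : Finset V, Y ≤ (R.card : ℝ) → HasMono G c R (a + 1) true ∨ HasMono G c R b false) :
    HasMono G c W (a + 1) true ∨ HasMono G c W (b + 1) false := by
  rcases step hG c W hW X Y h with ⟨v, hv, R, hRW, hXR, hadj⟩ | ⟨v, hv, R, hRW, hYR, hadj⟩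
  · rcases hX R hXR with h1 | h1
    · exact Or.inl (h1.cons hv hRW hadj)
    · exact Or.inr (h1.subset hRW)
  · rcases hY R hYR with h1 | h1
    · exact Or.inl (h1.subset hRW)
    · exact Or.inr (h1.cons hv hRW hadj)

/-- pure Erdős–Szekeres bound in a nearly complete graph -/
lemma claimA (hG : NearComplete G lam D) (hD : 1 ≤ D) (th : ℝ) (hth1 : 1 ≤ th)
    (hth : th * (1 - lam) = 1) (c : Sym2 V → Bool) :
    ∀ (n a b : ℕ), a + b = n → ∀ W : Finset V,
      th ^ (a + b) * (D * (2 * ((a + b).choose a : ℝ) - 1)) ≤ (W.card : ℝ) →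
      HasMono G c W a true ∨ HasMono G c W b false := by
  intro n
  induction n with
  | zero =>
    intro a b hab W _
    have : a = 0 := by omega
    subst this
    exact Or.inl (HasMono.zero _ _ _ _)
  | succ n ih =>
    intro a b hab W hW
    rcases Nat.eq_zero_or_pos a with rfl | ha
    · exact Or.inl (HasMono.zero _ _ _ _)
    rcases Nat.eq_zero_or_pos b with rfl | hb
    · exact Or.inr (HasMono.zero _ _ _ _)
    obtain ⟨a, rfl⟩ : ∃ a', a = a' + 1 := ⟨a - 1, by omega⟩
    obtain ⟨b, rfl⟩ : ∃ b', b = b' + 1 := ⟨b - 1, by omega⟩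
    have hth0 : 0 < th := by linarith
    have hpas : ((a + 1 + (b + 1)).choose (a + 1) : ℝ) =
        ((a + (b + 1)).choose a : ℝ) + ((a + 1 + b).choose (a + 1) : ℝ) := by
      have h1 : a + 1 + (b + 1) = (a + 1 + b) + 1 := by ring
      rw [h1, Nat.choose_succ_succ]
      have h2 : a + (b + 1) = a + 1 + b := by ring
      rw [h2]
      push_cast
      rfl
    have hc1 : (1 : ℝ) ≤ ((a + (b + 1)).choose a : ℝ) := by
      exact_mod_cast Nat.choose_pos (by omega)
    have hc2 : (1 : ℝ) ≤ ((a + 1 + b).choose (a + 1) : ℝ) := by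
      exact_mod_cast Nat.choose_pos (by omega)
    set C1 := ((a + (b + 1)).choose a : ℝ) with hC1
    set C2 := ((a + 1 + b).choose (a + 1) : ℝ) with hC2
    rw [hpas] at hW
    have hne : W.Nonempty := by
      rw [← Finset.card_pos]
      have h1 : (0 : ℝ) < th ^ (a + 1 + (b + 1)) * (D * (2 * (C1 + C2) - 1)) := by
        apply mul_pos (pow_pos hth0 _)
        apply mul_pos (by linarith)
        linarith
      exact_mod_cast lt_of_lt_of_le h1 hW
    have hpow : (1 : ℝ) ≤ th ^ (a + b + 1) := one_le_pow₀ hth1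
    refine step_rec hG c a b W hne (th ^ (a + b + 1) * (D * (2 * C1 - 1)))
      (th ^ (a + b + 1) * (D * (2 * C2 - 1))) ?_ ?_ ?_
    · have hlam' : 0 ≤ 1 - lam := by
        by_contra hneg
        push Not at hneg
        nlinarith
      have h2 : (1 - lam) * (th ^ (a + 1 + (b + 1)) * (D * (2 * (C1 + C2) - 1))) ≤
          (1 - lam) * (W.card : ℝ) := mul_le_mul_of_nonneg_left hW hlam'
      have h3 : (1 - lam) * (th ^ (a + 1 + (b + 1)) * (D * (2 * (C1 + C2) - 1))) =
          th ^ (a + b + 1) * (D * (2 * (C1 + C2) - 1)) := by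
        have : th ^ (a + 1 + (b + 1)) = th ^ (a + b + 1) * th := by rw [← pow_succ]; congr 1; ring
        rw [this]
        calc (1 - lam) * (th ^ (a + b + 1) * th * (D * (2 * (C1 + C2) - 1)))
            = (th * (1 - lam)) * (th ^ (a + b + 1) * (D * (2 * (C1 + C2) - 1))) := by ring
          _ = _ := by rw [hth, one_mul]
      rw [h3] at h2
      have h4 : D ≤ th ^ (a + b + 1) * D := by nlinarith
      nlinarith
    · intro R hR
      refine ih a (b + 1) (by omega) R ?_
      have : a + (b + 1) = a + b + 1 := by ring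
      rw [this]
      rw [this] at hC1
      rw [← hC1]
      exact hR
    · intro R hR
      refine ih (a + 1) b (by omega) R ?_
      have : a + 1 + b = a + b + 1 := by ring
      rw [this]
      rw [this] at hC2
      rw [← hC2]
      exact hR

lemma choose_le (a b : ℕ) : ((a + b).choose a : ℝ) ≤ 9 ^ a * (9 / 8) ^ b := by
  have h1 : ((1 : ℝ) / 9 + 8 / 9) ^ (a + b) = 1 := by norm_num
  rw [add_pow] at h1
  have h2 : ((1 : ℝ) / 9) ^ a * (8 / 9) ^ (a + b - a) * ((a + b).choose a : ℝ) ≤ 1 := by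
    refine le_trans ?_ h1.le
    exact Finset.single_le_sum (f := fun m => ((1 : ℝ) / 9) ^ m * (8 / 9) ^ (a + b - m) *
      ((a + b).choose m : ℝ)) (fun m _ => by positivity)
      (Finset.mem_range.mpr (show a < a + b + 1 by omega))
  rw [Nat.add_sub_cancel_left] at h2
  have h3 : ((1 : ℝ) / 9) ^ a * (8 / 9) ^ b * (9 ^ a * (9 / 8) ^ b) = 1 := by
    rw [mul_mul_mul_comm, ← mul_pow, ← mul_pow]
    norm_num
  have h4 : (0 : ℝ) < ((1 : ℝ) / 9) ^ a * (8 / 9) ^ b := by positivity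
  by_contra hcon
  push Not at hcon
  have h5 := mul_lt_mul_of_pos_left hcon h4
  rw [h3] at h5
  linarith

/-- the potential of the unbalanced exits -/
noncomputable def Phi (w0 kp astar a b : ℕ) : ℝ :=
  (w0 : ℝ) * ((9 / 8) ^ a * 9 ^ b + (9 / 8) ^ b * 9 ^ a) / ((9 / 8) ^ astar * 9 ^ kp)

lemma Phi_comm (w0 kp astar a b : ℕ) : Phi w0 kp astar a b = Phi w0 kp astar b a := by
  unfold Phi
  ring

lemma Phi_rec (w0 kp astar a b : ℕ) :
    Phi w0 kp astar a (b + 1) + Phi w0 kp astar (a + 1) b = Phi w0 kp astar (a + 1) (b + 1) := by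
  unfold Phi
  rw [← add_div]
  congr 1
  simp only [pow_succ]
  ring

lemma Phi_ge_left (w0 kp astar a b : ℕ) :
    (w0 : ℝ) * ((9 / 8) ^ a * 9 ^ b) / ((9 / 8) ^ astar * 9 ^ kp) ≤ Phi w0 kp astar a b := by
  unfold Phi
  apply div_le_div_of_nonneg_right _ (by positivity)
  apply mul_le_mul_of_nonneg_left _ (by positivity)
  have : (0 : ℝ) ≤ (9 / 8) ^ b * 9 ^ a := by positivity
  linarith

/-- on the boundary of the square, `b = kp` -/
lemma claimC_aux (hG : NearComplete G lam D) (hlam : 0 ≤ lam) (hD : 1 ≤ D) (th : ℝ) (hth1 : 1 ≤ th)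
    (hth : th * (1 - lam) = 1) (c : Sym2 V → Bool) (w0 L kp astar : ℕ)
    (hL : (L : ℝ) * (lam * w0 + D) ≤ w0) (hkp : Forces (⊤ : SimpleGraph (Fin L)) kp)
    (hastar : D * (9 ^ astar * (9 / 8) ^ kp) ≤ w0)
    (a b : ℕ) (hsq : (a ≤ kp ∧ b = kp) ∨ (a = kp ∧ b ≤ kp)) (W : Finset V)
    (hW : th ^ (a + b) * (2 * Phi w0 kp astar a b - D) ≤ (W.card : ℝ)) :
    HasMono G c W a true ∨ HasMono G c W b false := by
  have hth0 : 0 < th := by linarith
  -- the smaller coordinate
  obtain ⟨s, hs, hPhi, hch⟩ : ∃ s : ℕ, s ≤ kp ∧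
      (w0 : ℝ) * ((9 / 8) ^ s * 9 ^ kp) / ((9 / 8) ^ astar * 9 ^ kp) ≤ Phi w0 kp astar a b ∧
      ((a + b).choose a : ℝ) ≤ 9 ^ s * (9 / 8) ^ kp := by
    rcases hsq with ⟨h1, rfl⟩ | ⟨rfl, h2⟩
    · exact ⟨a, h1, Phi_ge_left _ _ _ _ _, choose_le a b⟩
    · refine ⟨b, h2, ?_, ?_⟩
      · rw [Phi_comm]; exact Phi_ge_left _ _ _ _ _
      · have h3 := choose_le b a
        rw [add_comm b a] at h3
        rwa [← Nat.choose_symm_add] at h3
  have hw0D : D ≤ w0 := by
    have h1 : (1 : ℝ) ≤ 9 ^ astar * (9 / 8) ^ kp := by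
      have h2 : (1 : ℝ) ≤ 9 ^ astar := one_le_pow₀ (by norm_num)
      have h3 : (1 : ℝ) ≤ (9 / 8) ^ kp := one_le_pow₀ (by norm_num)
      nlinarith
    nlinarith
  have hab : a ≤ kp ∧ b ≤ kp := by
    rcases hsq with ⟨h1, rfl⟩ | ⟨rfl, h2⟩
    · exact ⟨h1, le_rfl⟩
    · exact ⟨le_rfl, h2⟩
  have hsimp : (w0 : ℝ) * ((9 / 8) ^ s * 9 ^ kp) / ((9 / 8) ^ astar * 9 ^ kp) =
      (w0 : ℝ) * ((9 / 8) ^ s / (9 / 8) ^ astar) := by
    field_simp
  rw [hsimp] at hPhi
  rcases le_or_gt astar s with hcase | hcase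
  · -- large cliques
    have h1 : (1 : ℝ) ≤ (9 / 8) ^ s / (9 / 8) ^ astar := by
      rw [le_div_iff₀ (by positivity), one_mul]
      exact pow_le_pow_right₀ (by norm_num) hcase
    have h2 : (w0 : ℝ) ≤ Phi w0 kp astar a b := by
      have : (0 : ℝ) ≤ w0 := by positivity
      nlinarith
    have h3 : (w0 : ℝ) ≤ (W.card : ℝ) := by
      have h4 : (1 : ℝ) ≤ th ^ (a + b) := one_le_pow₀ hth1
      have h5 : (w0 : ℝ) ≤ 2 * Phi w0 kp astar a b - D := by linarith
      have h6 : (0 : ℝ) ≤ w0 := by positivity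
      nlinarith
    obtain ⟨Q, hQ, hQc⟩ := exists_clique hG hlam hD w0 L hL W (by exact_mod_cast h3)
    obtain ⟨col, hcol⟩ := hasMono_of_clique c hkp hQc hQ
    cases col
    · exact Or.inr (hcol.le hab.2)
    · exact Or.inl (hcol.le hab.1)
  · -- binomial region
    refine claimA hG hD th hth1 hth c _ a b rfl W ?_
    refine le_trans ?_ hW
    apply mul_le_mul_of_nonneg_left _ (by positivity)
    have h1 : D * ((a + b).choose a : ℝ) ≤ Phi w0 kp astar a b := by
      refine le_trans ?_ hPhi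
      have h2 : D * ((a + b).choose a : ℝ) ≤ D * (9 ^ s * (9 / 8) ^ kp) :=
        mul_le_mul_of_nonneg_left hch (by linarith)
      refine h2.trans ?_
      rw [← mul_div_assoc, le_div_iff₀ (by positivity)]
      obtain ⟨t, rfl⟩ : ∃ t, astar = s + t := ⟨astar - s, by omega⟩
      have h3 : D * (9 ^ s * (9 / 8) ^ kp) * (9 / 8) ^ (s + t) ≤
          D * (9 ^ (s + t) * (9 / 8) ^ kp) * (9 / 8) ^ s := by
        have h4 : ((9 : ℝ) / 8) ^ t ≤ 9 ^ t := pow_le_pow_left₀ (by norm_num) (by norm_num) t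
        have h5 : D * (9 ^ s * (9 / 8) ^ kp) * (9 / 8) ^ (s + t) =
          (D * 9 ^ s * (9 / 8) ^ kp * (9 / 8) ^ s) * (9 / 8) ^ t := by rw [pow_add]; ring
        have h6 : D * (9 ^ (s + t) * (9 / 8) ^ kp) * (9 / 8) ^ s =
          (D * 9 ^ s * (9 / 8) ^ kp * (9 / 8) ^ s) * 9 ^ t := by rw [pow_add]; ring
        rw [h5, h6]
        exact mul_le_mul_of_nonneg_left h4 (by positivity)
      refine h3.trans ?_
      exact mul_le_mul_of_nonneg_right hastar (by positivity)
    linarith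

/-- outside the square -/
lemma claimB (hG : NearComplete G lam D) (hlam : 0 ≤ lam) (hD : 1 ≤ D) (th : ℝ) (hth1 : 1 ≤ th)
    (hth : th * (1 - lam) = 1) (c : Sym2 V → Bool) (w0 L kp astar : ℕ)
    (hL : (L : ℝ) * (lam * w0 + D) ≤ w0) (hkp : Forces (⊤ : SimpleGraph (Fin L)) kp)
    (hastar : D * (9 ^ astar * (9 / 8) ^ kp) ≤ w0) :
    ∀ (n a b : ℕ), a + b = n → (kp < a ∨ kp < b) → ∀ W : Finset V,
      th ^ (a + b) * (2 * Phi w0 kp astar a b - D) ≤ (W.card : ℝ) →
      HasMono G c W a true ∨ HasMono G c W b false := by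
  have hth0 : 0 < th := by linarith
  have hlam' : 0 ≤ 1 - lam := by
    by_contra hneg
    push Not at hneg
    nlinarith
  intro n
  induction n with
  | zero =>
    intro a b hab hout W _
    omega
  | succ n ih =>
    intro a b hab hout W hW
    rcases Nat.eq_zero_or_pos a with rfl | ha
    · exact Or.inl (HasMono.zero _ _ _ _)
    rcases Nat.eq_zero_or_pos b with rfl | hb
    · exact Or.inr (HasMono.zero _ _ _ _)
    obtain ⟨a, rfl⟩ : ∃ a', a = a' + 1 := ⟨a - 1, by omega⟩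
    obtain ⟨b, rfl⟩ : ∃ b', b = b' + 1 := ⟨b - 1, by omega⟩
    -- positivity of the potential
    have hPhiD : D ≤ Phi w0 kp astar (a + 1) (b + 1) := by
      have key : ∀ s t : ℕ, kp ≤ t → D ≤ (w0 : ℝ) * ((9 / 8) ^ s * 9 ^ t) / ((9 / 8) ^ astar * 9 ^ kp) := by
        intro s t hst
        rw [le_div_iff₀ (by positivity)]
        have h1 : (9 : ℝ) ^ kp ≤ 9 ^ t := pow_le_pow_right₀ (by norm_num) hst
        have h2 : (1 : ℝ) ≤ (9 / 8) ^ s := one_le_pow₀ (by norm_num)
        have h3 : D * (9 / 8) ^ astar ≤ w0 := by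
          refine le_trans ?_ hastar
          apply mul_le_mul_of_nonneg_left _ (by linarith)
          have h4 : ((9 : ℝ) / 8) ^ astar ≤ 9 ^ astar := pow_le_pow_left₀ (by norm_num) (by norm_num) _
          have h5 : (1 : ℝ) ≤ (9 / 8) ^ kp := one_le_pow₀ (by norm_num)
          have h6 : (0 : ℝ) < 9 ^ astar := by positivity
          nlinarith
        calc D * ((9 / 8) ^ astar * 9 ^ kp) = (D * (9 / 8) ^ astar) * 9 ^ kp := by ring
          _ ≤ (w0 : ℝ) * 9 ^ kp := mul_le_mul_of_nonneg_right h3 (by positivity)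
          _ ≤ (w0 : ℝ) * ((9 / 8) ^ s * 9 ^ t) := by
              apply mul_le_mul_of_nonneg_left _ (by positivity)
              have h7 : (0 : ℝ) < 9 ^ kp := by positivity
              nlinarith
      rcases hout with h | h
      · rw [Phi_comm]
        exact (key (b + 1) (a + 1) h.le).trans (Phi_ge_left _ _ _ _ _)
      · exact (key (a + 1) (b + 1) h.le).trans (Phi_ge_left _ _ _ _ _)
    have hne : W.Nonempty := by
      rw [← Finset.card_pos]
      have h1 : (0 : ℝ) < th ^ (a + 1 + (b + 1)) * (2 * Phi w0 kp astar (a + 1) (b + 1) - D) := by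
        apply mul_pos (pow_pos hth0 _)
        linarith
      exact_mod_cast lt_of_lt_of_le h1 hW
    have hpow : (1 : ℝ) ≤ th ^ (a + b + 1) := one_le_pow₀ hth1
    have hrec := Phi_rec w0 kp astar a b
    refine step_rec hG c a b W hne (th ^ (a + b + 1) * (2 * Phi w0 kp astar a (b + 1) - D))
      (th ^ (a + b + 1) * (2 * Phi w0 kp astar (a + 1) b - D)) ?_ ?_ ?_
    · have h2 : (1 - lam) * (th ^ (a + 1 + (b + 1)) * (2 * Phi w0 kp astar (a + 1) (b + 1) - D)) ≤
          (1 - lam) * (W.card : ℝ) := mul_le_mul_of_nonneg_left hW hlam'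
      have h3 : (1 - lam) * (th ^ (a + 1 + (b + 1)) * (2 * Phi w0 kp astar (a + 1) (b + 1) - D)) =
          th ^ (a + b + 1) * (2 * Phi w0 kp astar (a + 1) (b + 1) - D) := by
        have : th ^ (a + 1 + (b + 1)) = th ^ (a + b + 1) * th := by rw [← pow_succ]; congr 1; ring
        rw [this]
        calc (1 - lam) * (th ^ (a + b + 1) * th * (2 * Phi w0 kp astar (a + 1) (b + 1) - D))
            = (th * (1 - lam)) * (th ^ (a + b + 1) * (2 * Phi w0 kp astar (a + 1) (b + 1) - D)) := by ring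
          _ = _ := by rw [hth, one_mul]
      rw [h3] at h2
      have h4 : D ≤ th ^ (a + b + 1) * D := by nlinarith
      rw [← hrec] at h2
      nlinarith
    · intro R hR
      have hpw : a + b + 1 = a + (b + 1) := by ring
      rw [hpw] at hR
      by_cases hout' : kp < a ∨ kp < b + 1
      · exact ih a (b + 1) (by omega) hout' R hR
      · push Not at hout'
        exact claimC_aux hG hlam hD th hth1 hth c w0 L kp astar hL hkp hastar a (b + 1)
          (Or.inr ⟨by omega, hout'.2⟩) R hR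
    · intro R hR
      have hpw : a + b + 1 = a + 1 + b := by ring
      rw [hpw] at hR
      by_cases hout' : kp < a + 1 ∨ kp < b
      · exact ih (a + 1) b (by omega) hout' R hR
      · push Not at hout'
        exact claimC_aux hG hlam hD th hth1 hth c w0 L kp astar hL hkp hastar (a + 1) b
          (Or.inl ⟨hout'.1, by omega⟩) R hR

/-- the combinatorial theorem -/
theorem forces_of_nearComplete [Fintype V] (hG : NearComplete G lam D) (hlam : 0 ≤ lam) (hD : 1 ≤ D)
    (th : ℝ) (hth1 : 1 ≤ th) (hth : th * (1 - lam) = 1) (w0 L kp astar k : ℕ)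
    (hL : (L : ℝ) * (lam * w0 + D) ≤ w0) (hkp : Forces (⊤ : SimpleGraph (Fin L)) kp)
    (hastar : D * (9 ^ astar * (9 / 8) ^ kp) ≤ w0) (hw0 : w0 ≤ Fintype.card V)
    (hn : th ^ (2 * k) * (4 * w0 * ((9 / 8) ^ k * 9 ^ k) / ((9 / 8) ^ astar * 9 ^ kp)) ≤
      (Fintype.card V : ℝ)) : Forces G k := by
  intro c
  rcases le_or_gt k kp with hk | hk
  · obtain ⟨Q, hQ, hQc⟩ := exists_clique hG hlam hD w0 L hL Finset.univ (by simpa using hw0)
    obtain ⟨col, hcol⟩ := hasMono_of_clique c hkp hQc hQ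
    obtain ⟨S, _, h1, h2⟩ := hcol.le hk
    exact ⟨S, col, h1, h2⟩
  · have h := claimB hG hlam hD th hth1 hth c w0 L kp astar hL hkp hastar (k + k) k k rfl
      (Or.inl hk) Finset.univ (by
        rw [Finset.card_univ]
        refine le_trans ?_ hn
        rw [two_mul k]
        apply mul_le_mul_of_nonneg_left _ (pow_nonneg (by linarith) _)
        have h1 : 2 * Phi w0 kp astar k k =
            4 * w0 * ((9 / 8) ^ k * 9 ^ k) / ((9 / 8) ^ astar * 9 ^ kp) := by
          unfold Phi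
          ring
        linarith)
    rcases h with h | h
    · obtain ⟨S, _, h1, h2⟩ := h
      exact ⟨S, true, h1, h2⟩
    · obtain ⟨S, _, h1, h2⟩ := h
      exact ⟨S, false, h1, h2⟩

end Pool.Agent.Helper78.Ramsey
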