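import Mathlib
import Pool.Agent.Helper78.RamseyComb

open Finset

namespace Pool.Agent.Helper78.Ramsey

/-! ### Counting functions `E → Fin (Q+1)` -/

section Counting

variable {E : Type} [Fintype E] [DecidableEq E]

lemma card_zero_on (Q : ℕ) (A : Finset E) :
    ((Finset.univ.filter (fun f : E → Fin (Q + 1) => ∀ e ∈ A, f e = 0)).card : ℝ) =
      (Fintype.card (E → Fin (Q + 1)) : ℝ) * (1 / ((Q : ℝ) + 1)) ^ A.card := by
  classical
  have h1 : Finset.univ.filter (fun f : E → Fin (Q + 1) => ∀ e ∈ A, f e = 0) =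
      Fintype.piFinset (fun e => if e ∈ A then ({0} : Finset (Fin (Q + 1))) else Finset.univ) := by
    ext f
    simp only [Finset.mem_filter, Finset.mem_univ, true_and, Fintype.mem_piFinset]
    constructor
    · intro h e
      by_cases he : e ∈ A
      · simp [he, h e he]
      · simp [he]
    · intro h e he
      have := h e
      simpa [he] using this
  rw [h1, Fintype.card_piFinset]
  have h2 : ∀ e : E, (if e ∈ A then ({0} : Finset (Fin (Q + 1))) else Finset.univ).card =
      if e ∈ A then 1 else (Q + 1) := by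
    intro e
    split_ifs <;> simp
  simp only [h2]
  have hQ : (0 : ℝ) < (Q : ℝ) + 1 := by positivity
  rw [Fintype.card_fun, Fintype.card_fin]
  push_cast
  have h3 : (∏ e : E, (if e ∈ A then (1 : ℝ) else ((Q : ℝ) + 1))) =
      ∏ e : E, (((Q : ℝ) + 1) * (if e ∈ A then 1 / ((Q : ℝ) + 1) else 1)) := by
    refine Finset.prod_congr rfl (fun e _ => ?_)
    split_ifs
    · field_simp
    · simp
  rw [h3, Finset.prod_mul_distrib, Finset.prod_const, Finset.card_univ, Finset.prod_ite_mem,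
    Finset.univ_inter, Finset.prod_const]

lemma card_nonzero_on (Q : ℕ) (A : Finset E) :
    ((Finset.univ.filter (fun f : E → Fin (Q + 1) => ∀ e ∈ A, f e ≠ 0)).card : ℝ) =
      (Fintype.card (E → Fin (Q + 1)) : ℝ) * (1 - 1 / ((Q : ℝ) + 1)) ^ A.card := by
  classical
  have h1 : Finset.univ.filter (fun f : E → Fin (Q + 1) => ∀ e ∈ A, f e ≠ 0) =
      Fintype.piFinset (fun e => if e ∈ A then (Finset.univ.erase (0 : Fin (Q + 1))) else Finset.univ) := by
    ext f
    simp only [Finset.mem_filter, Finset.mem_univ, true_and, Fintype.mem_piFinset]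
    constructor
    · intro h e
      by_cases he : e ∈ A
      · simp [he, h e he]
      · simp [he]
    · intro h e he
      have := h e
      simpa [he] using this
  rw [h1, Fintype.card_piFinset]
  have h2 : ∀ e : E, (if e ∈ A then (Finset.univ.erase (0 : Fin (Q + 1))) else Finset.univ).card =
      if e ∈ A then Q else (Q + 1) := by
    intro e
    split_ifs <;> simp
  simp only [h2]
  have hQ : (0 : ℝ) < (Q : ℝ) + 1 := by positivity
  rw [Fintype.card_fun, Fintype.card_fin]
  push_cast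
  have h3 : (∏ e : E, (if e ∈ A then (Q : ℝ) else ((Q : ℝ) + 1))) =
      ∏ e : E, (((Q : ℝ) + 1) * (if e ∈ A then (1 - 1 / ((Q : ℝ) + 1)) else 1)) := by
    refine Finset.prod_congr rfl (fun e _ => ?_)
    split_ifs
    · field_simp
      ring
    · simp
  rw [h3, Finset.prod_mul_distrib, Finset.prod_const, Finset.card_univ, Finset.prod_ite_mem,
    Finset.univ_inter, Finset.prod_const]

/-- at least `t` zeros on `P` -/
lemma card_many_zero_le (Q : ℕ) (P : Finset E) (t : ℕ) :
    ((Finset.univ.filter (fun f : E → Fin (Q + 1) => t ≤ (P.filter (fun e => f e = 0)).card)).card : ℝ) ≤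
      (Fintype.card (E → Fin (Q + 1)) : ℝ) * ((P.card.choose t : ℝ) * (1 / ((Q : ℝ) + 1)) ^ t) := by
  classical
  have hsub : Finset.univ.filter (fun f : E → Fin (Q + 1) => t ≤ (P.filter (fun e => f e = 0)).card) ⊆
      (P.powersetCard t).biUnion (fun A => Finset.univ.filter
        (fun f : E → Fin (Q + 1) => ∀ e ∈ A, f e = 0)) := by
    intro f hf
    rw [Finset.mem_filter] at hf
    obtain ⟨A, hA, hAc⟩ := Finset.exists_subset_card_eq hf.2
    rw [Finset.mem_biUnion]
    refine ⟨A, ?_, ?_⟩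
    · rw [Finset.mem_powersetCard]
      exact ⟨hA.trans (Finset.filter_subset _ _), hAc⟩
    · rw [Finset.mem_filter]
      exact ⟨Finset.mem_univ _, fun e he => (Finset.mem_filter.mp (hA he)).2⟩
  have h1 := (Finset.card_le_card hsub).trans Finset.card_biUnion_le
  have h2 : ((∑ A ∈ P.powersetCard t, (Finset.univ.filter
        (fun f : E → Fin (Q + 1) => ∀ e ∈ A, f e = 0)).card : ℕ) : ℝ) =
      (Fintype.card (E → Fin (Q + 1)) : ℝ) * ((P.card.choose t : ℝ) * (1 / ((Q : ℝ) + 1)) ^ t) := by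
    push_cast
    rw [Finset.sum_congr rfl (fun A hA => by
      rw [card_zero_on, (Finset.mem_powersetCard.mp hA).2])]
    rw [Finset.sum_const, Finset.card_powersetCard, nsmul_eq_mul]
    ring
  rw [← h2]
  exact_mod_cast h1

end Counting

/-! ### The random graph -/

/-- the graph of non-zero pairs -/
def graphOf {n Q : ℕ} (f : Sym2 (Fin n) → Fin (Q + 1)) : SimpleGraph (Fin n) where
  Adj x y := x ≠ y ∧ f s(x, y) ≠ 0
  symm := ⟨fun x y h => ⟨h.1.symm, by rw [Sym2.eq_swap]; exact h.2⟩⟩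
  loopless := ⟨fun x h => h.1 rfl⟩

instance {n Q : ℕ} (f : Sym2 (Fin n) → Fin (Q + 1)) : DecidableRel (graphOf f).Adj :=
  fun x y => inferInstanceAs (Decidable (x ≠ y ∧ f s(x, y) ≠ 0))

/-- unordered pairs inside `W` -/
def prs {n : ℕ} (W : Finset (Fin n)) : Finset (Sym2 (Fin n)) :=
  W.offDiag.image (Function.uncurry Sym2.mk)

lemma card_prs {n : ℕ} (W : Finset (Fin n)) : (prs W).card = W.card.choose 2 :=
  Sym2.card_image_offDiag W

lemma mem_prs {n : ℕ} {W : Finset (Fin n)} {x y : Fin n} (hx : x ∈ W) (hy : y ∈ W) (hxy : x ≠ y) :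
    s(x, y) ∈ prs W :=
  Finset.mem_image.mpr ⟨(x, y), Finset.mem_offDiag.mpr ⟨hx, hy, hxy⟩, rfl⟩

/-- if every vertex of `W` has small degree in `W`, there are many zero pairs -/
lemma many_zero {n Q : ℕ} (f : Sym2 (Fin n) → Fin (Q + 1)) (W : Finset (Fin n)) (lam D : ℝ)
    (h : ∀ v ∈ W, ((W.filter ((graphOf f).Adj v)).card : ℝ) < (1 - lam) * (W.card : ℝ) - D) :
    (W.card : ℝ) * (lam * W.card + (D - 1)) / 2 ≤ (((prs W).filter (fun e => f e = 0)).card : ℝ) := by
  classical
  set O := W.offDiag.filter (fun p => f s(p.1, p.2) = 0) with hO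
  have h1 : O.card ≤ 2 * ((prs W).filter (fun e => f e = 0)).card := by
    have h2 : O.image (Function.uncurry Sym2.mk) ⊆ (prs W).filter (fun e => f e = 0) := by
      intro e he
      obtain ⟨p, hp, rfl⟩ := Finset.mem_image.mp he
      rw [hO, Finset.mem_filter, Finset.mem_offDiag] at hp
      rw [Finset.mem_filter]
      exact ⟨mem_prs hp.1.1 hp.1.2.1 hp.1.2.2, hp.2⟩
    refine le_trans (Finset.card_le_mul_card_image (f := Function.uncurry Sym2.mk) O 2 ?_)
      (Nat.mul_le_mul_left 2 (Finset.card_le_card h2))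
    intro e he
    obtain ⟨p, hp, rfl⟩ := Finset.mem_image.mp he
    have h3 : O.filter (fun x => Function.uncurry Sym2.mk x = Function.uncurry Sym2.mk p) ⊆
        {p, p.swap} := by
      intro x hx
      rw [Finset.mem_filter] at hx
      rw [Finset.mem_insert, Finset.mem_singleton]
      obtain ⟨x1, x2⟩ := x
      obtain ⟨p1, p2⟩ := p
      have h4 := hx.2
      simp only [Function.uncurry_apply_pair, Sym2.eq_iff] at h4
      rcases h4 with ⟨rfl, rfl⟩ | ⟨rfl, rfl⟩
      · left; rfl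
      · right; rfl
    exact (Finset.card_le_card h3).trans Finset.card_le_two
  have h5 : (O.card : ℝ) = ∑ v ∈ W, ((W.card : ℝ) - 1 - ((W.filter ((graphOf f).Adj v)).card : ℝ)) := by
    have h6 : O.card = ∑ v ∈ W, (W.filter (fun u => v ≠ u ∧ f s(v, u) = 0)).card := by
      have h7 : O = W.biUnion (fun v => (W.filter (fun u => v ≠ u ∧ f s(v, u) = 0)).map
          ⟨fun u => (v, u), fun a b hab => (Prod.mk.inj hab).2⟩) := by
        ext ⟨a, b⟩
        simp only [hO, Finset.mem_filter, Finset.mem_offDiag, Finset.mem_biUnion, Finset.mem_map]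
        constructor
        · rintro ⟨⟨ha, hb, hab⟩, hf⟩
          exact ⟨a, ha, b, ⟨hb, hab, hf⟩, rfl⟩
        · rintro ⟨v, hv, u, ⟨hu, hvu, hf⟩, heq⟩
          obtain ⟨rfl, rfl⟩ := Prod.mk.inj heq
          exact ⟨⟨hv, hu, hvu⟩, hf⟩
      rw [h7, Finset.card_biUnion]
      · simp only [Finset.card_map]
      · intro a _ b _ hab
        rw [Function.onFun, Finset.disjoint_left]
        intro x hx hx'
        obtain ⟨u, _, rfl⟩ := Finset.mem_map.mp hx
        obtain ⟨u', _, h8⟩ := Finset.mem_map.mp hx'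
        exact hab (Prod.mk.inj h8).1.symm
    rw [h6]
    push_cast
    refine Finset.sum_congr rfl (fun v hv => ?_)
    have h8 : W.card = 1 + (W.filter (fun u => v ≠ u ∧ f s(v, u) = 0)).card +
        (W.filter ((graphOf f).Adj v)).card := by
      have h9 : W = {v} ∪ W.filter (fun u => v ≠ u ∧ f s(v, u) = 0) ∪
          W.filter ((graphOf f).Adj v) := by
        ext u
        simp only [Finset.mem_union, Finset.mem_singleton, Finset.mem_filter]
        constructor
        · intro hu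
          by_cases h10 : u = v
          · exact Or.inl (Or.inl h10)
          · by_cases h11 : f s(v, u) = 0
            · exact Or.inl (Or.inr ⟨hu, fun h => h10 h.symm, h11⟩)
            · exact Or.inr ⟨hu, fun h => h10 h.symm, h11⟩
        · rintro ((rfl | h) | h)
          · exact hv
          · exact h.1
          · exact h.1
      conv_lhs => rw [h9]
      rw [Finset.card_union_of_disjoint, Finset.card_union_of_disjoint, Finset.card_singleton]
      · rw [Finset.disjoint_left]
        intro u hu hu'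
        rw [Finset.mem_singleton] at hu
        exact (Finset.mem_filter.mp hu').2.1 hu.symm
      · rw [Finset.disjoint_left]
        intro u hu hu'
        have h12 := (Finset.mem_filter.mp hu').2
        rcases Finset.mem_union.mp hu with h | h
        · rw [Finset.mem_singleton] at h
          exact h12.1 h.symm
        · exact h12.2 (Finset.mem_filter.mp h).2.2
    have h13 : (W.card : ℝ) = 1 + ((W.filter (fun u => v ≠ u ∧ f s(v, u) = 0)).card : ℝ) +
        ((W.filter ((graphOf f).Adj v)).card : ℝ) := by exact_mod_cast h8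
    linarith
  have h14 : (W.card : ℝ) * (lam * W.card + (D - 1)) ≤ (O.card : ℝ) := by
    rw [h5]
    calc (W.card : ℝ) * (lam * W.card + (D - 1)) = ∑ v ∈ W, (lam * W.card + (D - 1)) := by
          rw [Finset.sum_const, nsmul_eq_mul]
      _ ≤ _ := Finset.sum_le_sum (fun v hv => by linarith [h v hv])
  have h15 : (O.card : ℝ) ≤ 2 * (((prs W).filter (fun e => f e = 0)).card : ℝ) := by exact_mod_cast h1
  linarith

lemma bad1_le (n M Q : ℕ) (hn : 1 ≤ n) (hM : 4 * Real.log n * ((Q : ℝ) + 1) ≤ M) :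
    ∃ B : Finset (Sym2 (Fin n) → Fin (Q + 1)), (∀ f : Sym2 (Fin n) → Fin (Q + 1),
      (∃ S : Finset (Fin n), S.card = M + 1 ∧ (graphOf f).IsClique (S : Set (Fin n))) → f ∈ B) ∧
      (B.card : ℝ) ≤ (Fintype.card (Sym2 (Fin n) → Fin (Q + 1)) : ℝ) * (1 / (n : ℝ)) := by
  classical
  refine ⟨((Finset.univ : Finset (Fin n)).powersetCard (M + 1)).biUnion (fun S =>
    Finset.univ.filter (fun f : Sym2 (Fin n) → Fin (Q + 1) => ∀ e ∈ prs S, f e ≠ 0)), ?_, ?_⟩
  · rintro f ⟨S, hS, hcl⟩
    rw [Finset.mem_biUnion]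
    refine ⟨S, Finset.mem_powersetCard.mpr ⟨Finset.subset_univ _, hS⟩, ?_⟩
    rw [Finset.mem_filter]
    refine ⟨Finset.mem_univ _, fun e he => ?_⟩
    obtain ⟨⟨x, y⟩, hp, rfl⟩ := Finset.mem_image.mp he
    rw [Finset.mem_offDiag] at hp
    exact (hcl (by exact_mod_cast hp.1) (by exact_mod_cast hp.2.1) hp.2.2).2
  have h1 := Finset.card_biUnion_le (s := (Finset.univ : Finset (Fin n)).powersetCard (M + 1))
    (t := fun S => Finset.univ.filter (fun f : Sym2 (Fin n) → Fin (Q + 1) => ∀ e ∈ prs S, f e ≠ 0))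
  have h2 : ((∑ S ∈ (Finset.univ : Finset (Fin n)).powersetCard (M + 1), (Finset.univ.filter
        (fun f : Sym2 (Fin n) → Fin (Q + 1) => ∀ e ∈ prs S, f e ≠ 0)).card : ℕ) : ℝ) =
      (Fintype.card (Sym2 (Fin n) → Fin (Q + 1)) : ℝ) *
        ((n.choose (M + 1) : ℝ) * (1 - 1 / ((Q : ℝ) + 1)) ^ ((M + 1).choose 2)) := by
    push_cast
    rw [Finset.sum_congr rfl (fun S hS => by
      rw [card_nonzero_on, card_prs, (Finset.mem_powersetCard.mp hS).2])]
    rw [Finset.sum_const, Finset.card_powersetCard, nsmul_eq_mul, Finset.card_univ, Fintype.card_fin]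
    ring
  have hnpos : (0 : ℝ) < n := by exact_mod_cast hn
  have hq : (0 : ℝ) < (Q : ℝ) + 1 := by positivity
  have hlog : 0 ≤ Real.log n := Real.log_nonneg (by exact_mod_cast hn)
  have h3 : (n.choose (M + 1) : ℝ) * (1 - 1 / ((Q : ℝ) + 1)) ^ ((M + 1).choose 2) ≤ 1 / (n : ℝ) := by
    have h4 : (n.choose (M + 1) : ℝ) ≤ (n : ℝ) ^ (M + 1) := by
      exact_mod_cast Nat.choose_le_pow n (M + 1)
    have h5 : (n : ℝ) ^ (M + 1) = Real.exp (((M : ℝ) + 1) * Real.log n) := by
      rw [mul_comm, Real.exp_mul, Real.exp_log hnpos]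
      norm_cast
    have h6 : (1 - 1 / ((Q : ℝ) + 1)) ^ ((M + 1).choose 2) ≤
        Real.exp (-(((M + 1).choose 2 : ℕ) : ℝ) / ((Q : ℝ) + 1)) := by
      have h7 : (1 - 1 / ((Q : ℝ) + 1)) ≤ Real.exp (-(1 / ((Q : ℝ) + 1))) := Real.one_sub_le_exp_neg _
      have h8 : (0 : ℝ) ≤ 1 - 1 / ((Q : ℝ) + 1) := by
        rw [sub_nonneg, div_le_one hq]
        have : (0 : ℝ) ≤ Q := by positivity
        linarith
      calc (1 - 1 / ((Q : ℝ) + 1)) ^ ((M + 1).choose 2) ≤
          Real.exp (-(1 / ((Q : ℝ) + 1))) ^ ((M + 1).choose 2) := pow_le_pow_left₀ h8 h7 _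
        _ = Real.exp (-(((M + 1).choose 2 : ℕ) : ℝ) / ((Q : ℝ) + 1)) := by
            rw [← Real.exp_nat_mul]
            congr 1
            ring
    have h9 : (((M + 1).choose 2 : ℕ) : ℝ) = ((M : ℝ) + 1) * M / 2 := by
      rw [Nat.cast_choose_two]
      push_cast
      ring
    calc (n.choose (M + 1) : ℝ) * (1 - 1 / ((Q : ℝ) + 1)) ^ ((M + 1).choose 2)
        ≤ Real.exp (((M : ℝ) + 1) * Real.log n) *
          Real.exp (-(((M + 1).choose 2 : ℕ) : ℝ) / ((Q : ℝ) + 1)) := by
          rw [← h5]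
          apply mul_le_mul h4 h6 _ (by positivity)
          apply pow_nonneg
          rw [sub_nonneg, div_le_one hq]
          have : (0 : ℝ) ≤ Q := by positivity
          linarith
      _ ≤ Real.exp (-Real.log n) := by
          rw [← Real.exp_add, Real.exp_le_exp, h9]
          have h10 : ((M : ℝ) + 1) * (2 * Real.log n) ≤ ((M : ℝ) + 1) * M / 2 / ((Q : ℝ) + 1) := by
            rw [le_div_iff₀ hq]
            have h11 : (0 : ℝ) ≤ (M : ℝ) + 1 := by positivity
            nlinarith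
          have h12 : (0 : ℝ) ≤ (M : ℝ) := by positivity
          have h13 : -(((M : ℝ) + 1) * M / 2) / ((Q : ℝ) + 1) = -(((M : ℝ) + 1) * M / 2 / ((Q : ℝ) + 1)) := by
            ring
          rw [h13]
          nlinarith
      _ = 1 / (n : ℝ) := by
          rw [Real.exp_neg, Real.exp_log hnpos, one_div]
  calc _ ≤ ((∑ S ∈ (Finset.univ : Finset (Fin n)).powersetCard (M + 1), (Finset.univ.filter
        (fun f : Sym2 (Fin n) → Fin (Q + 1) => ∀ e ∈ prs S, f e ≠ 0)).card : ℕ) : ℝ) := by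
        exact_mod_cast h1
    _ = _ := h2
    _ ≤ _ := mul_le_mul_of_nonneg_left h3 (Nat.cast_nonneg _)

/-- threshold for the number of zero pairs -/
noncomputable def thr (n Q w : ℕ) : ℕ :=
  ⌈(w : ℝ) * (8 / ((Q : ℝ) + 1) * w + 4 * Real.log n) / 2⌉₊

lemma choose_thr_le (n Q w : ℕ) (hn : 2 ≤ n) (hw : 1 ≤ w) :
    ((w.choose 2).choose (thr n Q w) : ℝ) * (1 / ((Q : ℝ) + 1)) ^ (thr n Q w) ≤
      (1 / (n : ℝ) ^ 2) ^ w := by
  set t := thr n Q w with ht
  have hq : (0 : ℝ) < (Q : ℝ) + 1 := by positivity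
  have hnpos : (0 : ℝ) < n := by exact_mod_cast (by omega : 0 < n)
  have hlog : 0 < Real.log n := Real.log_pos (by exact_mod_cast (by omega : 1 < n))
  have hwpos : (0 : ℝ) < w := by exact_mod_cast hw
  have htge : (w : ℝ) * (8 / ((Q : ℝ) + 1) * w + 4 * Real.log n) / 2 ≤ t := Nat.le_ceil _
  have h1 : (0 : ℝ) < (w : ℝ) * (8 / ((Q : ℝ) + 1) * w + 4 * Real.log n) / 2 := by positivity
  have htpos : (0 : ℝ) < t := lt_of_lt_of_le h1 htge
  set P : ℝ := ((w.choose 2 : ℕ) : ℝ) with hP
  have hP0 : 0 ≤ P := by positivity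
  have hPle : P ≤ (w : ℝ) ^ 2 / 2 := by
    rw [hP, Nat.cast_choose_two]
    nlinarith
  have h2 : ((w.choose 2).choose t : ℝ) ≤ P ^ t / (t.factorial : ℝ) := Nat.choose_le_pow_div t _
  have h3 : (t : ℝ) ^ t / (t.factorial : ℝ) ≤ Real.exp t := Real.pow_div_factorial_le_exp t htpos.le t
  have h4 : P ^ t / (t.factorial : ℝ) ≤ (P / t) ^ t * Real.exp t := by
    have : P ^ t / (t.factorial : ℝ) = (P / t) ^ t * ((t : ℝ) ^ t / (t.factorial : ℝ)) := by
      rw [div_pow]
      field_simp
    rw [this]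
    exact mul_le_mul_of_nonneg_left h3 (by positivity)
  have h5 : P / t * (Real.exp 1 * (1 / ((Q : ℝ) + 1))) ≤ Real.exp (-1) := by
    have h6 : P / t ≤ ((Q : ℝ) + 1) / 8 := by
      rw [div_le_div_iff₀ htpos (by norm_num)]
      have h7 : (w : ℝ) * (8 / ((Q : ℝ) + 1) * w) / 2 ≤ t := by
        refine le_trans ?_ htge
        have : (0 : ℝ) ≤ w * (4 * Real.log n) := by positivity
        nlinarith
      have h8 : ((Q : ℝ) + 1) * ((w : ℝ) * (8 / ((Q : ℝ) + 1) * w) / 2) ≤ ((Q : ℝ) + 1) * t :=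
        mul_le_mul_of_nonneg_left h7 hq.le
      have h9 : ((Q : ℝ) + 1) * ((w : ℝ) * (8 / ((Q : ℝ) + 1) * w) / 2) = 4 * (w : ℝ) ^ 2 := by
        field_simp
        ring
      rw [h9] at h8
      linarith
    calc P / t * (Real.exp 1 * (1 / ((Q : ℝ) + 1))) ≤
        ((Q : ℝ) + 1) / 8 * (Real.exp 1 * (1 / ((Q : ℝ) + 1))) :=
          mul_le_mul_of_nonneg_right h6 (by positivity)
      _ = Real.exp 1 / 8 := by field_simp
      _ ≤ Real.exp (-1) := by
          rw [Real.exp_neg, div_le_iff₀ (by norm_num), inv_mul_eq_div, le_div_iff₀ (Real.exp_pos 1)]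
          have he : Real.exp 1 < 2.7182818286 := Real.exp_one_lt_d9
          have he0 : 0 < Real.exp 1 := Real.exp_pos 1
          nlinarith
  calc ((w.choose 2).choose t : ℝ) * (1 / ((Q : ℝ) + 1)) ^ t
      ≤ ((P / t) ^ t * Real.exp t) * (1 / ((Q : ℝ) + 1)) ^ t :=
        mul_le_mul_of_nonneg_right (h2.trans h4) (by positivity)
    _ = (P / t * (Real.exp 1 * (1 / ((Q : ℝ) + 1)))) ^ t := by
        have : Real.exp t = Real.exp 1 ^ t := by rw [← Real.exp_nat_mul, mul_one]
        rw [this, mul_pow, mul_pow]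
        ring
    _ ≤ Real.exp (-1) ^ t := pow_le_pow_left₀ (by positivity) h5 t
    _ = Real.exp (-(t : ℝ)) := by rw [← Real.exp_nat_mul]; congr 1; ring
    _ ≤ Real.exp (-(2 * w * Real.log n)) := by
        rw [Real.exp_le_exp, neg_le_neg_iff]
        refine le_trans ?_ htge
        have : (0 : ℝ) ≤ w * (8 / ((Q : ℝ) + 1) * w) := by positivity
        nlinarith
    _ = (1 / (n : ℝ) ^ 2) ^ w := by
        rw [Real.exp_neg, show 2 * (w : ℝ) * Real.log n = Real.log n * ((2 * w : ℕ) : ℝ) by push_cast; ring,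
          Real.exp_mul, Real.exp_log hnpos, Real.rpow_natCast, one_div, inv_pow, ← pow_mul]

lemma bad2_le (n Q : ℕ) (hn : 2 ≤ n) :
    ∃ B : Finset (Sym2 (Fin n) → Fin (Q + 1)), (∀ f : Sym2 (Fin n) → Fin (Q + 1),
      ¬ NearComplete (graphOf f) (8 / ((Q : ℝ) + 1)) (4 * Real.log n + 1) → f ∈ B) ∧
      (B.card : ℝ) ≤
      (Fintype.card (Sym2 (Fin n) → Fin (Q + 1)) : ℝ) * (Real.exp (1 / n) - 1) := by
  classical
  refine ⟨((Finset.univ : Finset (Finset (Fin n))).erase ∅).biUnion (fun W => Finset.univ.filter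
        (fun f : Sym2 (Fin n) → Fin (Q + 1) =>
          thr n Q W.card ≤ ((prs W).filter (fun e => f e = 0)).card)), ?_, ?_⟩
  · intro f h1
    unfold NearComplete at h1
    push Not at h1
    obtain ⟨W, hW, hv⟩ := h1
    rw [Finset.mem_biUnion]
    refine ⟨W, Finset.mem_erase.mpr ⟨hW.ne_empty, Finset.mem_univ _⟩, ?_⟩
    rw [Finset.mem_filter]
    refine ⟨Finset.mem_univ _, ?_⟩
    unfold thr
    rw [Nat.ceil_le]
    have h2 := many_zero f W (8 / ((Q : ℝ) + 1)) (4 * Real.log n + 1) (fun v hv' => by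
      have h3 := hv v hv'
      exact h3)
    simpa using h2
  have h1 := Finset.card_biUnion_le (s := (Finset.univ : Finset (Finset (Fin n))).erase ∅)
    (t := fun W => Finset.univ.filter (fun f : Sym2 (Fin n) → Fin (Q + 1) =>
          thr n Q W.card ≤ ((prs W).filter (fun e => f e = 0)).card))
  have hnpos : (0 : ℝ) < n := by exact_mod_cast (by omega : 0 < n)
  have h2 : ((∑ W ∈ (Finset.univ : Finset (Finset (Fin n))).erase ∅, (Finset.univ.filter
        (fun f : Sym2 (Fin n) → Fin (Q + 1) =>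
          thr n Q W.card ≤ ((prs W).filter (fun e => f e = 0)).card)).card : ℕ) : ℝ) ≤
      (Fintype.card (Sym2 (Fin n) → Fin (Q + 1)) : ℝ) * (Real.exp (1 / n) - 1) := by
    push_cast
    calc ∑ W ∈ (Finset.univ : Finset (Finset (Fin n))).erase ∅, ((Finset.univ.filter
        (fun f : Sym2 (Fin n) → Fin (Q + 1) =>
          thr n Q W.card ≤ ((prs W).filter (fun e => f e = 0)).card)).card : ℝ)
        ≤ ∑ W ∈ (Finset.univ : Finset (Finset (Fin n))).erase ∅,
          (Fintype.card (Sym2 (Fin n) → Fin (Q + 1)) : ℝ) * (1 / (n : ℝ) ^ 2) ^ W.card := by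
          refine Finset.sum_le_sum (fun W hW => ?_)
          refine (card_many_zero_le Q (prs W) (thr n Q W.card)).trans ?_
          apply mul_le_mul_of_nonneg_left _ (by positivity)
          rw [card_prs]
          apply choose_thr_le n Q W.card hn
          rw [Finset.one_le_card]
          exact Finset.nonempty_iff_ne_empty.mpr (Finset.ne_of_mem_erase hW)
      _ = (Fintype.card (Sym2 (Fin n) → Fin (Q + 1)) : ℝ) *
          ((1 / (n : ℝ) ^ 2 + 1) ^ n - 1) := by
          rw [← Finset.mul_sum]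
          congr 1
          have h3 := Fintype.sum_pow_mul_eq_add_pow (Fin n) (1 / (n : ℝ) ^ 2) 1
          rw [Fintype.card_fin] at h3
          have h5 := Finset.add_sum_erase (Finset.univ : Finset (Finset (Fin n)))
            (fun W => (1 / (n : ℝ) ^ 2) ^ W.card) (Finset.mem_univ ∅)
          simp only [one_pow, mul_one] at h3
          rw [← h3, ← h5]
          simp
      _ ≤ _ := by
          apply mul_le_mul_of_nonneg_left _ (by positivity)
          have h4 : (1 / (n : ℝ) ^ 2 + 1) ^ n ≤ Real.exp (1 / n) := by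
            calc (1 / (n : ℝ) ^ 2 + 1) ^ n ≤ Real.exp (1 / (n : ℝ) ^ 2) ^ n :=
                pow_le_pow_left₀ (by positivity) (Real.add_one_le_exp _) n
              _ = Real.exp (1 / n) := by
                  rw [← Real.exp_nat_mul]
                  congr 1
                  field_simp
          linarith
  exact le_trans (by exact_mod_cast h1) h2

/-- existence of nearly complete graphs with small clique number -/
theorem exists_nearComplete (n M Q : ℕ) (hn : 4 ≤ n) (hM : 4 * Real.log n * ((Q : ℝ) + 1) ≤ M) :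
    ∃ (G : SimpleGraph (Fin n)) (_ : DecidableRel G.Adj), G.cliqueNum ≤ M ∧
      NearComplete G (8 / ((Q : ℝ) + 1)) (4 * Real.log n + 1) := by
  classical
  obtain ⟨B1, hB1, hb1⟩ := bad1_le n M Q (by omega) hM
  obtain ⟨B2, hB2, hb2⟩ := bad2_le n Q (by omega)
  set Ω : ℝ := (Fintype.card (Sym2 (Fin n) → Fin (Q + 1)) : ℝ) with hΩ
  have hΩpos : 0 < Ω := by
    rw [hΩ]
    exact_mod_cast Fintype.card_pos
  have hn4 : (4 : ℝ) ≤ n := by exact_mod_cast hn
  have h1 : 1 / (n : ℝ) ≤ 1 / 4 := one_div_le_one_div_of_le (by norm_num) hn4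
  have h2 : Real.exp (1 / (n : ℝ)) < 3 / 2 := by
    have h3 : Real.exp (1 / (n : ℝ)) ≤ Real.exp (1 / 4) := Real.exp_le_exp.mpr h1
    have h4 : Real.exp (1 / 4) ^ 4 = Real.exp 1 := by
      rw [← Real.exp_nat_mul]; norm_num
    have h5 : Real.exp 1 < 2.7182818286 := Real.exp_one_lt_d9
    by_contra hcon
    push Not at hcon
    have h6 : (3 / 2 : ℝ) ≤ Real.exp (1 / 4) := hcon.trans h3
    have h7 : (3 / 2 : ℝ) ^ 4 ≤ Real.exp (1 / 4) ^ 4 := pow_le_pow_left₀ (by norm_num) h6 4
    rw [h4] at h7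
    norm_num at h7
    linarith
  have h3 : ((B1 ∪ B2).card : ℝ) < Ω := by
    have h4 : ((B1 ∪ B2).card : ℝ) ≤ (B1.card : ℝ) + B2.card := by
      exact_mod_cast Finset.card_union_le _ _
    have h5 : Ω * (1 / (n : ℝ)) ≤ Ω * (1 / 4) := mul_le_mul_of_nonneg_left h1 hΩpos.le
    have h6 : Ω * (Real.exp (1 / n) - 1) ≤ Ω * (1 / 2) :=
      mul_le_mul_of_nonneg_left (by linarith) hΩpos.le
    linarith
  have h5 : ∃ f, f ∉ B1 ∪ B2 := by
    by_contra hcon
    push Not at hcon
    have h6 : B1 ∪ B2 = Finset.univ := Finset.eq_univ_iff_forall.mpr hcon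
    rw [h6, Finset.card_univ] at h3
    exact lt_irrefl _ h3
  obtain ⟨f, hf⟩ := h5
  rw [Finset.mem_union, not_or] at hf
  refine ⟨graphOf f, inferInstance, ?_, ?_⟩
  · by_contra hcon
    push Not at hcon
    apply hf.1
    apply hB1
    obtain ⟨S, hS⟩ := (graphOf f).exists_isNClique_cliqueNum
    obtain ⟨T, hT, hTc⟩ := Finset.exists_subset_card_eq (s := S) (n := M + 1)
      (by rw [hS.card_eq]; exact hcon)
    exact ⟨T, hTc, hS.isClique.subset (by exact_mod_cast hT)⟩
  · by_contra hcon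
    exact hf.2 (hB2 _ hcon)

/-! ### Erdős' lower bound -/

lemma not_forces_pow (j : ℕ) (hj : 1 ≤ j) :
    ¬ Forces (⊤ : SimpleGraph (Fin (2 ^ j))) (2 * j + 1) := by
  classical
  intro hF
  set m := 2 ^ j with hm
  set s := 2 * j + 1 with hs
  -- all functions are bad
  have hcover : (Finset.univ : Finset (Sym2 (Fin m) → Fin (1 + 1))) ⊆
      ((Finset.univ : Finset (Fin m)).powersetCard s).biUnion (fun S =>
        (Finset.univ.filter (fun f : Sym2 (Fin m) → Fin (1 + 1) => ∀ e ∈ prs S, f e = 0)) ∪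
        (Finset.univ.filter (fun f : Sym2 (Fin m) → Fin (1 + 1) => ∀ e ∈ prs S, f e ≠ 0))) := by
    intro f _
    obtain ⟨S, col, hS, hc⟩ := hF (fun e => decide (f e = 0))
    rw [Finset.mem_biUnion]
    refine ⟨S, Finset.mem_powersetCard.mpr ⟨Finset.subset_univ _, hS.card_eq⟩, ?_⟩
    rw [Finset.mem_union, Finset.mem_filter, Finset.mem_filter]
    cases col
    · right
      refine ⟨Finset.mem_univ _, fun e he => ?_⟩
      obtain ⟨⟨x, y⟩, hp, rfl⟩ := Finset.mem_image.mp he
      rw [Finset.mem_offDiag] at hp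
      have := hc x hp.1 y hp.2.1 hp.2.2
      simpa using this
    · left
      refine ⟨Finset.mem_univ _, fun e he => ?_⟩
      obtain ⟨⟨x, y⟩, hp, rfl⟩ := Finset.mem_image.mp he
      rw [Finset.mem_offDiag] at hp
      have := hc x hp.1 y hp.2.1 hp.2.2
      simpa using this
  have h1 := (Finset.card_le_card hcover).trans Finset.card_biUnion_le
  rw [Finset.card_univ] at h1
  set Ω : ℝ := (Fintype.card (Sym2 (Fin m) → Fin (1 + 1)) : ℝ) with hΩ
  have hΩpos : 0 < Ω := by
    rw [hΩ]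
    exact_mod_cast Fintype.card_pos
  have h2 : Ω ≤ (m.choose s : ℝ) * (2 * (Ω * (1 / 2) ^ (s.choose 2))) := by
    calc Ω ≤ ((∑ S ∈ (Finset.univ : Finset (Fin m)).powersetCard s,
        ((Finset.univ.filter (fun f : Sym2 (Fin m) → Fin (1 + 1) => ∀ e ∈ prs S, f e = 0)) ∪
        (Finset.univ.filter (fun f : Sym2 (Fin m) → Fin (1 + 1) => ∀ e ∈ prs S, f e ≠ 0))).card : ℕ) : ℝ) := by
          rw [hΩ]
          exact_mod_cast h1
      _ ≤ ∑ S ∈ (Finset.univ : Finset (Fin m)).powersetCard s, (2 * (Ω * (1 / 2) ^ (s.choose 2))) := by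
          push_cast
          refine Finset.sum_le_sum (fun S hS => ?_)
          have h3 : (((Finset.univ.filter (fun f : Sym2 (Fin m) → Fin (1 + 1) => ∀ e ∈ prs S, f e = 0)) ∪
            (Finset.univ.filter (fun f : Sym2 (Fin m) → Fin (1 + 1) => ∀ e ∈ prs S, f e ≠ 0))).card : ℝ) ≤
            ((Finset.univ.filter (fun f : Sym2 (Fin m) → Fin (1 + 1) => ∀ e ∈ prs S, f e = 0)).card : ℝ) +
            ((Finset.univ.filter (fun f : Sym2 (Fin m) → Fin (1 + 1) => ∀ e ∈ prs S, f e ≠ 0)).card : ℝ) := by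
            exact_mod_cast Finset.card_union_le _ _
          refine h3.trans ?_
          rw [card_zero_on, card_nonzero_on, card_prs, (Finset.mem_powersetCard.mp hS).2, ← hΩ]
          apply le_of_eq
          norm_num
          ring
      _ = _ := by
          rw [Finset.sum_const, Finset.card_powersetCard, nsmul_eq_mul, Finset.card_univ,
            Fintype.card_fin]
  have h3 : (m.choose s : ℝ) ≤ (m : ℝ) ^ s / (s.factorial : ℝ) := Nat.choose_le_pow_div s m
  have h4 : (m : ℝ) ^ s = 2 ^ (j * s) := by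
    rw [hm]
    push_cast
    rw [← pow_mul]
  have h5 : s.choose 2 = j * s := by
    rw [Nat.choose_two_right, hs]
    have : 2 * j + 1 - 1 = 2 * j := by omega
    rw [this]
    have h6 : (2 * j + 1) * (2 * j) = 2 * (j * (2 * j + 1)) := by ring
    rw [h6, Nat.mul_div_cancel_left _ (by norm_num)]
  have h6 : (6 : ℝ) ≤ (s.factorial : ℝ) := by
    have : (3).factorial ≤ s.factorial := Nat.factorial_le (by omega)
    have h7 : (3).factorial = 6 := rfl
    rw [h7] at this
    exact_mod_cast this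
  have h7 : (m.choose s : ℝ) * (2 * (Ω * (1 / 2) ^ (s.choose 2))) ≤ Ω / 3 := by
    rw [h5]
    have h8 : (m.choose s : ℝ) ≤ 2 ^ (j * s) / 6 := by
      refine h3.trans ?_
      rw [h4]
      exact div_le_div_of_nonneg_left (by positivity) (by norm_num) h6
    have h9 : (2 : ℝ) ^ (j * s) * (1 / 2) ^ (j * s) = 1 := by
      rw [← mul_pow]; norm_num
    calc (m.choose s : ℝ) * (2 * (Ω * (1 / 2) ^ (j * s)))
        ≤ (2 ^ (j * s) / 6) * (2 * (Ω * (1 / 2) ^ (j * s))) :=
          mul_le_mul_of_nonneg_right h8 (by positivity)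
      _ = (2 ^ (j * s) * (1 / 2) ^ (j * s)) * Ω / 3 := by ring
      _ = Ω / 3 := by rw [h9, one_mul]
  linarith

lemma r_pow_le (j : ℕ) (hj : 1 ≤ j) : r (2 ^ j) ≤ 2 * j := by
  by_contra hcon
  push Not at hcon
  exact not_forces_pow j hj ((forces_r (2 ^ j)).mono hcon)

end Pool.Agent.Helper78.Ramsey
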