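import Mathlib
import Pool.Agent.Helper78.RamseyRandom

open Finset Filter Topology

namespace Pool.Agent.Helper78.Ramsey

/-- lower growth of `r` -/
def Grow (β : ℝ) : Prop := ∀ᶠ m : ℕ in atTop, β * Real.log m ≤ (r m : ℝ)

lemma grow_zero : Grow 0 := by
  filter_upwards with m
  simp

lemma Grow.mono {β γ : ℝ} (h : Grow β) (hγ : γ ≤ β) : Grow γ := by
  filter_upwards [h, eventually_ge_atTop 1] with m hm h1
  refine le_trans ?_ hm
  exact mul_le_mul_of_nonneg_right hγ (Real.log_nonneg (by exact_mod_cast h1))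

lemma Grow.le {β : ℝ} (h : Grow β) : β * Real.log 2 ≤ 2 := by
  have h1 : Tendsto (fun j : ℕ => 2 ^ j) atTop atTop := tendsto_pow_atTop_atTop_of_one_lt (by norm_num)
  have h2 := h1.eventually h
  obtain ⟨j, hj, hj1⟩ := (h2.and (eventually_ge_atTop 1)).exists
  have h3 : (r (2 ^ j) : ℝ) ≤ 2 * j := by exact_mod_cast r_pow_le j hj1
  push_cast at hj
  rw [Real.log_pow] at hj
  have hjpos : (0 : ℝ) < j := by exact_mod_cast hj1
  have h4 : (β * Real.log 2) * j ≤ 2 * j := by nlinarith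
  exact le_of_mul_le_mul_right h4 hjpos

lemma r_le_log (m : ℕ) (hm : 1 ≤ m) : (r m : ℝ) ≤ 3 * Real.log m + 3 := by
  have hlog2 : (0.6931471803 : ℝ) < Real.log 2 := Real.log_two_gt_d9
  have hlogm : 0 ≤ Real.log m := Real.log_nonneg (by exact_mod_cast hm)
  have h1 : r m ≤ 2 * (Nat.log 2 m + 1) := by
    refine (r_mono (Nat.lt_pow_succ_log_self (show 1 < 2 by norm_num) m).le).trans ?_
    exact r_pow_le _ (by omega)
  have h2 : (Nat.log 2 m : ℝ) * Real.log 2 ≤ Real.log m := by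
    have h3 : 2 ^ (Nat.log 2 m) ≤ m := Nat.pow_log_le_self 2 (by omega)
    have h4 : ((2 : ℝ) ^ (Nat.log 2 m)) ≤ m := by exact_mod_cast h3
    have h5 := Real.log_le_log (by positivity) h4
    rwa [Real.log_pow] at h5
  have h3 : (r m : ℝ) ≤ 2 * ((Nat.log 2 m : ℝ) + 1) := by exact_mod_cast h1
  have h4 : (0 : ℝ) ≤ (Nat.log 2 m : ℝ) := by positivity
  nlinarith

/-! ### elementary eventual inequalities -/

lemma tendsto_log_nat : Tendsto (fun n : ℕ => Real.log n) atTop atTop :=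
  Real.tendsto_log_atTop.comp tendsto_natCast_atTop_atTop

lemma ev_log_le_rpow {e c : ℝ} (he : 0 < e) (hc : 0 < c) :
    ∀ᶠ n : ℕ in atTop, Real.log n ≤ c * (n : ℝ) ^ e := by
  have h1 := (isLittleO_log_rpow_atTop he).bound hc
  have h2 := tendsto_natCast_atTop_atTop.eventually h1
  filter_upwards [h2, eventually_ge_atTop 1] with n hn h3
  have h4 : 0 ≤ Real.log n := Real.log_nonneg (by exact_mod_cast h3)
  have h5 : (0 : ℝ) ≤ (n : ℝ) ^ e := by positivity
  rw [Real.norm_of_nonneg h4, Real.norm_of_nonneg h5] at hn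
  exact hn

lemma ev_loglog_le {C c : ℝ} (hC : 0 < C) (hc : 0 < c) :
    ∀ᶠ n : ℕ in atTop, Real.log (C * Real.log n) ≤ c * Real.log n := by
  have h1 := (Real.isLittleO_log_id_atTop).bound (show 0 < c / 2 by positivity)
  have h2 := tendsto_log_nat.eventually h1
  have h3 := tendsto_log_nat.eventually (eventually_ge_atTop (2 * |Real.log C| / c + 1))
  filter_upwards [h2, h3] with n hn h4
  have h5 : 0 ≤ 2 * |Real.log C| / c := by positivity
  have h6 : 1 ≤ Real.log n := by linarith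
  have h7 : 0 ≤ Real.log (Real.log n) := Real.log_nonneg h6
  rw [Real.norm_of_nonneg h7, id, Real.norm_of_nonneg (by linarith : (0 : ℝ) ≤ Real.log n)] at hn
  rw [Real.log_mul hC.ne' (by linarith)]
  have h8 : |Real.log C| ≤ c / 2 * Real.log n := by
    have h9 : 2 * |Real.log C| / c ≤ Real.log n := by linarith
    rw [div_le_iff₀ hc] at h9
    linarith
  have h10 := le_abs_self (Real.log C)
  linarith

lemma ev_const_le {C c : ℝ} (hc : 0 < c) : ∀ᶠ n : ℕ in atTop, C ≤ c * Real.log n := by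
  filter_upwards [tendsto_log_nat.eventually (eventually_ge_atTop (C / c))] with n hn
  rw [div_le_iff₀ hc] at hn
  linarith

/-- `A = log (9/8)` -/
noncomputable abbrev LA : ℝ := Real.log (9 / 8)
/-- `B = log 9` -/
noncomputable abbrev LB : ℝ := Real.log 9

lemma LA_pos : 0 < LA := Real.log_pos (by norm_num)
lemma LB_pos : 0 < LB := Real.log_pos (by norm_num)
lemma LA_le : LA ≤ 1 / 8 := by
  have := Real.log_le_sub_one_of_pos (show (0 : ℝ) < 9 / 8 by norm_num)
  unfold LA
  linarith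
lemma LA_le_LB : LA ≤ LB := Real.log_le_log (by norm_num) (by norm_num)

lemma aux_small {lam x Y k : ℝ} (hlam0 : 0 < lam) (hx : 1 ≤ x) (hlamY : lam * Y ≤ 128 * x)
    (hxx : 10000 * (x * x) ≤ Y) (hk : k ≤ 6 * x) : lam * k ≤ 1 / 8 ∧ lam ≤ 1 / 8 := by
  have h2 : lam * (10000 * (x * x)) ≤ lam * Y := mul_le_mul_of_nonneg_left hxx hlam0.le
  have h3 : lam * x ≤ 128 / 10000 := by
    have h4 : (10000 * (lam * x)) * x ≤ 128 * x := by linarith
    have h5 := le_of_mul_le_mul_right h4 (by linarith : (0 : ℝ) < x)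
    linarith
  constructor
  · have h6 : lam * k ≤ lam * (6 * x) := mul_le_mul_of_nonneg_left hk hlam0.le
    linarith
  · have h6 : lam * 1 ≤ lam * x := mul_le_mul_of_nonneg_left hx hlam0.le
    linarith

/-- the key step: if no good graph exists on `n` vertices, `r` at scale `n^(1-ε)` is large compared
with `r` at scale `n^ε` -/
lemma fail_ineq (ε : ℝ) (hε : 0 < ε) (hε' : ε < 1 / 2)
    (hfail : ∀ᶠ n : ℕ in atTop, ¬ ∃ G : SimpleGraph (Fin n), (G.cliqueNum : ℝ) ≤ (n : ℝ) ^ ε ∧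
      Forces G (r ⌊(n : ℝ) ^ (1 - ε)⌋₊)) :
    ∀ᶠ n : ℕ in atTop, ∃ L : ℕ, (n : ℝ) ^ ε / (276 * Real.log n) ≤ L ∧
      (1 - ε * (1 - LA / LB)) * Real.log n + (r L : ℝ) * (LB - LA ^ 2 / LB) ≤
        (LA + LB) * (r ⌊(n : ℝ) ^ (1 - ε)⌋₊ : ℝ) +
        (Real.log 8 + LA + LA / LB * Real.log (5 * Real.log n)) := by
  have hA := LA_pos
  have hB := LB_pos
  filter_upwards [hfail, eventually_ge_atTop 4, ev_const_le (C := 1) (c := 1) one_pos,
    ev_log_le_rpow hε (show (0 : ℝ) < 1 / 1000 by norm_num),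
    ev_log_le_rpow (show 0 < ε / 2 by positivity) (show (0 : ℝ) < 1 / 100 by norm_num),
    ev_loglog_le (show (0 : ℝ) < 5 by norm_num) (show 0 < ε / 8 by positivity),
    ev_const_le (C := 3 / 8 + 5 / 8 * Real.log 2) (show 0 < ε / 2 by positivity)] with
    n hn hn4 hlog1 hE1 hE2 hE3 hE4
  have hnpos : (0 : ℝ) < n := by exact_mod_cast (by omega : 0 < n)
  have hn1 : (1 : ℝ) ≤ n := by exact_mod_cast (by omega : 1 ≤ n)
  rw [one_mul] at hlog1
  set x := Real.log n with hx
  have hxpos : 0 < x := by linarith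
  set Y : ℝ := (n : ℝ) ^ ε with hY
  have hYge : 1000 * x ≤ Y := by linarith
  have hYpos : 0 < Y := by linarith
  set M := ⌊Y⌋₊ with hM
  have hMle : (M : ℝ) ≤ Y := Nat.floor_le hYpos.le
  have hMge : Y / 2 ≤ M := by
    have := Nat.lt_floor_add_one Y
    rw [← hM] at this
    linarith
  have hMpos : (0 : ℝ) < M := by linarith
  -- q
  obtain ⟨Q, hQ1, hQ2⟩ : ∃ Q : ℕ, 4 * x * ((Q : ℝ) + 1) ≤ M ∧ (M : ℝ) ≤ 8 * x * ((Q : ℝ) + 1) := by
    have h1 : (2 : ℝ) ≤ M / (4 * x) := by
      rw [le_div_iff₀ (by positivity)]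
      linarith
    have h2 : 2 ≤ ⌊(M : ℝ) / (4 * x)⌋₊ := Nat.le_floor (by exact_mod_cast h1)
    refine ⟨⌊(M : ℝ) / (4 * x)⌋₊ - 1, ?_, ?_⟩
    · have h3 : ((⌊(M : ℝ) / (4 * x)⌋₊ - 1 : ℕ) : ℝ) + 1 = (⌊(M : ℝ) / (4 * x)⌋₊ : ℝ) := by
        rw [Nat.cast_sub (by omega)]; push_cast; ring
      rw [h3]
      have h4 := Nat.floor_le (show 0 ≤ (M : ℝ) / (4 * x) by positivity)
      rw [le_div_iff₀ (by positivity)] at h4
      linarith
    · have h3 : ((⌊(M : ℝ) / (4 * x)⌋₊ - 1 : ℕ) : ℝ) + 1 = (⌊(M : ℝ) / (4 * x)⌋₊ : ℝ) := by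
        rw [Nat.cast_sub (by omega)]; push_cast; ring
      rw [h3]
      have h4 := Nat.lt_floor_add_one ((M : ℝ) / (4 * x))
      have h5 : (M : ℝ) / (4 * x) ≤ 2 * (⌊(M : ℝ) / (4 * x)⌋₊ : ℝ) := by linarith
      rw [div_le_iff₀ (by positivity)] at h5
      linarith
  have hQpos : (0 : ℝ) < (Q : ℝ) + 1 := by positivity
  set lam : ℝ := 8 / ((Q : ℝ) + 1) with hlam
  have hlam0 : 0 < lam := by positivity
  have hlamM : lam * M ≤ 64 * x := by
    rw [hlam, div_mul_eq_mul_div, div_le_iff₀ hQpos]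
    linarith
  set D : ℝ := 4 * x + 1 with hD
  have hD1 : 1 ≤ D := by linarith
  have hD5 : D ≤ 5 * x := by linarith
  obtain ⟨G, hdec, hcl, hnear⟩ := exists_nearComplete n M Q hn4 hQ1
  -- L
  set L := ⌊(M : ℝ) / (69 * x)⌋₊ with hL
  have hL1 : (L : ℝ) ≤ M / (69 * x) := Nat.floor_le (by positivity)
  have hL2 : (M : ℝ) / (138 * x) ≤ L := by
    have h1 : (2 : ℝ) ≤ M / (69 * x) := by
      rw [le_div_iff₀ (by positivity)]; linarith
    have h2 := Nat.lt_floor_add_one ((M : ℝ) / (69 * x))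
    rw [← hL] at h2
    have h3 : (M : ℝ) / (138 * x) = M / (69 * x) / 2 := by
      rw [div_div]; congr 1; ring
    rw [h3]
    linarith
  have hLcond : (L : ℝ) * (lam * M + D) ≤ M := by
    have h1 : lam * M + D ≤ 69 * x := by linarith
    calc (L : ℝ) * (lam * M + D) ≤ L * (69 * x) := mul_le_mul_of_nonneg_left h1 (by positivity)
      _ ≤ M / (69 * x) * (69 * x) := mul_le_mul_of_nonneg_right hL1 (by positivity)
      _ = M := by field_simp
  have hLpos : (0 : ℝ) < L := lt_of_lt_of_le (by positivity) hL2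
  have hL1' : 1 ≤ L := by exact_mod_cast hLpos
  -- k, k'
  set k := r ⌊(n : ℝ) ^ (1 - ε)⌋₊ with hk
  set kp := r L with hkp
  have hkle : (k : ℝ) ≤ 3 * x + 3 := by
    have h1 : (1 : ℝ) ≤ (n : ℝ) ^ (1 - ε) := Real.one_le_rpow hn1 (by linarith)
    have h2 : 1 ≤ ⌊(n : ℝ) ^ (1 - ε)⌋₊ := Nat.le_floor (by exact_mod_cast h1)
    have h3 := r_le_log _ h2
    have h4 : Real.log (⌊(n : ℝ) ^ (1 - ε)⌋₊ : ℝ) ≤ x := by
      apply Real.log_le_log (by exact_mod_cast h2)
      calc (⌊(n : ℝ) ^ (1 - ε)⌋₊ : ℝ) ≤ (n : ℝ) ^ (1 - ε) := Nat.floor_le (by positivity)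
        _ ≤ (n : ℝ) ^ (1 : ℝ) := Real.rpow_le_rpow_of_exponent_le hn1 (by linarith)
        _ = n := Real.rpow_one _
    linarith
  have hLM : (L : ℝ) ≤ M := by
    refine hL1.trans (div_le_self hMpos.le ?_)
    linarith
  have hkple : (kp : ℝ) ≤ 3 * Real.log M + 3 := by
    have h1 := r_le_log L hL1'
    have h2 : Real.log L ≤ Real.log M := Real.log_le_log hLpos hLM
    linarith
  have hlogMle : Real.log M ≤ ε * x := by
    have h1 : Real.log M ≤ Real.log Y := Real.log_le_log hMpos hMle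
    rwa [hY, Real.log_rpow hnpos] at h1
  have hlogMge : ε * x - Real.log 2 ≤ Real.log M := by
    have h1 : Real.log (Y / 2) ≤ Real.log M := Real.log_le_log (by positivity) hMge
    rw [Real.log_div hYpos.ne' (by norm_num), hY, Real.log_rpow hnpos] at h1
    exact h1
  -- lam small
  have hlamY : lam * Y ≤ 128 * x := by
    have h1 : Y ≤ 2 * M := by linarith
    calc lam * Y ≤ lam * (2 * M) := mul_le_mul_of_nonneg_left h1 hlam0.le
      _ = 2 * (lam * M) := by ring
      _ ≤ 128 * x := by linarith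
  have hxx : 10000 * (x * x) ≤ Y := by
    have h1 : (n : ℝ) ^ (ε / 2) * (n : ℝ) ^ (ε / 2) = Y := by
      rw [← Real.rpow_add hnpos, hY]; congr 1; ring
    have h2 : 100 * x ≤ (n : ℝ) ^ (ε / 2) := by linarith
    rw [← h1]
    calc 10000 * (x * x) = (100 * x) * (100 * x) := by ring
      _ ≤ (n : ℝ) ^ (ε / 2) * (n : ℝ) ^ (ε / 2) :=
        mul_le_mul h2 h2 (by positivity) (by positivity)
  obtain ⟨hklam, hlamle⟩ := aux_small hlam0 hlog1 hlamY hxx (k := (k : ℝ)) (by linarith)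
  have h1lam : 0 < 1 - lam := by linarith
  set th : ℝ := 1 / (1 - lam) with hth
  have hth1 : 1 ≤ th := by
    rw [hth, le_div_iff₀ h1lam]; linarith
  have hthlam : th * (1 - lam) = 1 := by rw [hth]; field_simp
  have hthpow : th ^ (2 * k) ≤ 2 := by
    have h1 : 1 + ((2 * k : ℕ) : ℝ) * (-lam) ≤ (1 + (-lam)) ^ (2 * k) :=
      one_add_mul_le_pow (by linarith) (2 * k)
    have h2 : (1 : ℝ) / 2 ≤ (1 - lam) ^ (2 * k) := by
      have h3 : (1 + (-lam)) ^ (2 * k) = (1 - lam) ^ (2 * k) := by ring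
      rw [h3] at h1
      push_cast at h1
      linarith
    rw [hth, div_pow, one_pow, div_le_iff₀ (by positivity)]
    linarith
  -- astar
  set y : ℝ := (Real.log M - Real.log D - kp * LA) / LB with hy
  have hlogD : Real.log D ≤ Real.log (5 * x) := Real.log_le_log (by linarith) hD5
  have hlogD0 : 0 ≤ Real.log D := Real.log_nonneg hD1
  have hkpA : kp * LA ≤ 3 / 8 * Real.log M + 3 / 8 := by
    have h1 : (kp : ℝ) * LA ≤ (3 * Real.log M + 3) * LA := mul_le_mul_of_nonneg_right hkple hA.le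
    have h2 : 0 ≤ 3 * Real.log M + 3 := by
      have : (0 : ℝ) ≤ kp := by positivity
      linarith
    have h3 : (3 * Real.log M + 3) * LA ≤ (3 * Real.log M + 3) * (1 / 8) :=
      mul_le_mul_of_nonneg_left LA_le h2
    linarith
  have hnum : 0 ≤ Real.log M - Real.log D - kp * LA := by
    have h1 : 5 / 8 * (ε * x - Real.log 2) ≤ 5 / 8 * Real.log M := by linarith
    linarith
  have hy0 : 0 ≤ y := div_nonneg hnum hB.le
  set astar := ⌊y⌋₊ with hastar
  have hast1 : (astar : ℝ) ≤ y := Nat.floor_le hy0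
  have hast2 : y - 1 < astar := by
    have := Nat.lt_floor_add_one y
    rw [← hastar] at this
    linarith
  have hDpos : 0 < D := by linarith
  have hcondA : D * (9 ^ astar * (9 / 8) ^ kp) ≤ M := by
    rw [← Real.log_le_log_iff (by positivity) hMpos, Real.log_mul hDpos.ne' (by positivity),
      Real.log_mul (by positivity) (by positivity), Real.log_pow, Real.log_pow]
    have h1 : (astar : ℝ) * LB ≤ y * LB := mul_le_mul_of_nonneg_right hast1 hB.le
    have h2 : y * LB = Real.log M - Real.log D - kp * LA := by rw [hy]; field_simp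
    have h3 : Real.log 9 = LB := rfl
    have h4 : Real.log (9 / 8) = LA := rfl
    rw [h3, h4]
    linarith
  refine ⟨L, ?_, ?_⟩
  · refine le_trans ?_ hL2
    have h1 : Y / (276 * x) = Y / 2 / (138 * x) := by
      rw [div_div]; congr 1; ring
    rw [h1]
    exact div_le_div_of_nonneg_right hMge (by positivity)
  -- the failure inequality
  have hMn : M ≤ n := by
    have h1 : (M : ℝ) ≤ n := by
      refine hMle.trans ?_
      calc Y = (n : ℝ) ^ ε := rfl
        _ ≤ (n : ℝ) ^ (1 : ℝ) := Real.rpow_le_rpow_of_exponent_le hn1 (by linarith)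
        _ = n := Real.rpow_one _
    exact_mod_cast h1
  have hineq : (n : ℝ) < 2 * (4 * M * ((9 / 8) ^ k * 9 ^ k) / ((9 / 8) ^ astar * 9 ^ kp)) := by
    by_contra hcon
    push Not at hcon
    apply hn
    refine ⟨G, ?_, ?_⟩
    · refine le_trans ?_ hMle
      exact_mod_cast hcl
    · refine forces_of_nearComplete hnear hlam0.le hD1 th hth1 hthlam M L kp astar k hLcond
        (forces_r L) hcondA (by simpa using hMn) ?_
      rw [Fintype.card_fin]
      refine le_trans ?_ hcon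
      exact mul_le_mul_of_nonneg_right hthpow (by positivity)
  have hlogineq := Real.log_lt_log hnpos hineq
  rw [Real.log_mul (by norm_num) (by positivity), Real.log_div (by positivity) (by positivity),
    Real.log_mul (by positivity) (by positivity), Real.log_mul (by norm_num) hMpos.ne',
    Real.log_mul (by positivity) (by positivity), Real.log_mul (by positivity) (by positivity),
    Real.log_pow, Real.log_pow, Real.log_pow, Real.log_pow] at hlogineq
  have h8 : Real.log 8 = Real.log 2 + Real.log 4 := by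
    rw [← Real.log_mul (by norm_num) (by norm_num)]; norm_num
  have h3 : Real.log 9 = LB := rfl
  have h4 : Real.log (9 / 8) = LA := rfl
  rw [h3, h4, ← hx] at hlogineq
  have hyA : (y - 1) * LA ≤ astar * LA := mul_le_mul_of_nonneg_right hast2.le hA.le
  have hyexp : y * LA = LA / LB * Real.log M - LA / LB * Real.log D - kp * (LA ^ 2 / LB) := by
    rw [hy]; field_simp
  have hAB : 0 ≤ 1 - LA / LB := by
    rw [sub_nonneg, div_le_one hB]
    exact LA_le_LB
  have hMx : (1 - LA / LB) * Real.log M ≤ (1 - LA / LB) * (ε * x) :=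
    mul_le_mul_of_nonneg_left hlogMle hAB
  have hDx : LA / LB * Real.log D ≤ LA / LB * Real.log (5 * x) :=
    mul_le_mul_of_nonneg_left hlogD (by positivity)
  rw [h8]
  linarith

end Pool.Agent.Helper78.Ramsey
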