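import Mathlib
import Pool.Agent.Helper78.RamseyAsymp

open Finset Filter Topology

namespace Pool.Agent.Helper78.Ramsey

lemma c1_nonneg : 0 ≤ LB - LA ^ 2 / LB := by
  have hA := LA_pos
  have hB := LB_pos
  rw [sub_nonneg, div_le_iff₀ hB]
  nlinarith [LA_le_LB]

lemma grow_step (ε : ℝ) (hε : 0 < ε) (hε' : ε < 1 / 2)
    (hfail : ∀ᶠ n : ℕ in atTop, ¬ ∃ G : SimpleGraph (Fin n), (G.cliqueNum : ℝ) ≤ (n : ℝ) ^ ε ∧
      Forces G (r ⌊(n : ℝ) ^ (1 - ε)⌋₊)) (β : ℝ) (hβ0 : 0 ≤ β) (hβ : Grow β) (γ : ℝ) (hγ0 : 0 ≤ γ)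
    (hγ : γ * ((1 - ε) * (LA + LB)) < (1 - ε * (1 - LA / LB)) + β * (ε * (LB - LA ^ 2 / LB))) :
    Grow γ := by
  have hA := LA_pos
  have hB := LB_pos
  have hc1 := c1_nonneg
  set c0 : ℝ := 1 - ε * (1 - LA / LB) with hc0
  set c1 : ℝ := LB - LA ^ 2 / LB with hc1d
  set S : ℝ := LA + LB with hS
  have hSpos : 0 < S := by positivity
  have h1ε : 0 < 1 - ε := by linarith
  set η : ℝ := (c0 + β * (ε * c1) - γ * ((1 - ε) * S)) / 4 with hη
  have hηpos : 0 < η := by
    rw [hη]; linarith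
  obtain ⟨m0, hm0⟩ := eventually_atTop.mp hβ
  -- growth at scale n
  have hstep : ∀ᶠ n : ℕ in atTop, (c0 + β * (ε * c1) - η) * Real.log n ≤
      S * (r ⌊(n : ℝ) ^ (1 - ε)⌋₊ : ℝ) := by
    have hcpos : (0 : ℝ) < 1 / (276 * ((m0 : ℝ) + 1)) := by positivity
    have hc' : 0 < η / 4 / (β * c1 + 1) := by positivity
    have hc'' : 0 < η / 4 / (LA / LB + 1) := by positivity
    filter_upwards [fail_ineq ε hε hε' hfail, ev_log_le_rpow hε hcpos,
      ev_const_le (C := 1) (c := 1) one_pos,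
      ev_loglog_le (show (0 : ℝ) < 276 by norm_num) hc',
      ev_loglog_le (show (0 : ℝ) < 5 by norm_num) hc'',
      ev_const_le (C := Real.log 8 + LA) (show 0 < η / 4 by positivity),
      eventually_ge_atTop 2] with n hn h1 h2 h3 h4 h5 h6
    rw [one_mul] at h2
    set x := Real.log n with hx
    have hxpos : 0 < x := by linarith
    have hnpos : (0 : ℝ) < n := by exact_mod_cast (by omega : 0 < n)
    obtain ⟨L, hL1, hL2⟩ := hn
    have hLm0 : (m0 : ℝ) ≤ L := by
      refine le_trans ?_ hL1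
      rw [le_div_iff₀ (by positivity)]
      have h7 : x * (276 * ((m0 : ℝ) + 1)) ≤ (n : ℝ) ^ ε := by
        have h8 := mul_le_mul_of_nonneg_right h1 (show 0 ≤ 276 * ((m0 : ℝ) + 1) by positivity)
        have h9 : 1 / (276 * ((m0 : ℝ) + 1)) * (n : ℝ) ^ ε * (276 * ((m0 : ℝ) + 1)) = (n : ℝ) ^ ε := by
          field_simp
        rwa [h9] at h8
      nlinarith
    have hrL : β * Real.log L ≤ (r L : ℝ) := hm0 L (by exact_mod_cast hLm0)
    have hlogL : ε * x - Real.log (276 * x) ≤ Real.log L := by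
      have h7 := Real.log_le_log (by positivity) hL1
      rw [Real.log_div (by positivity) (by positivity), Real.log_rpow hnpos] at h7
      exact h7
    have hrL' : β * c1 * (ε * x - Real.log (276 * x)) ≤ (r L : ℝ) * c1 := by
      calc β * c1 * (ε * x - Real.log (276 * x)) ≤ β * c1 * Real.log L :=
            mul_le_mul_of_nonneg_left hlogL (by positivity)
        _ = (β * Real.log L) * c1 := by ring
        _ ≤ (r L : ℝ) * c1 := mul_le_mul_of_nonneg_right hrL hc1
    have h7 : β * c1 * Real.log (276 * x) ≤ η / 4 * x := by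
      calc β * c1 * Real.log (276 * x) ≤ β * c1 * (η / 4 / (β * c1 + 1) * x) :=
            mul_le_mul_of_nonneg_left h3 (by positivity)
        _ = (β * c1 / (β * c1 + 1)) * (η / 4 * x) := by field_simp
        _ ≤ 1 * (η / 4 * x) := by
            apply mul_le_mul_of_nonneg_right _ (by positivity)
            rw [div_le_one (by positivity)]
            linarith
        _ = η / 4 * x := one_mul _
    have h8 : LA / LB * Real.log (5 * x) ≤ η / 4 * x := by
      calc LA / LB * Real.log (5 * x) ≤ LA / LB * (η / 4 / (LA / LB + 1) * x) :=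
            mul_le_mul_of_nonneg_left h4 (by positivity)
        _ = (LA / LB / (LA / LB + 1)) * (η / 4 * x) := by field_simp
        _ ≤ 1 * (η / 4 * x) := by
            apply mul_le_mul_of_nonneg_right _ (by positivity)
            rw [div_le_one (by positivity)]
            linarith
        _ = η / 4 * x := one_mul _
    have h9 : β * c1 * (ε * x - Real.log (276 * x)) = β * (ε * c1) * x - β * c1 * Real.log (276 * x) := by
      ring
    rw [h9] at hrL'
    have h10 : (c0 + β * (ε * c1) - η) * x = c0 * x + β * (ε * c1) * x - η * x := by ring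
    rw [h10]
    have h11 : 0 ≤ η * x := by positivity
    linarith
  obtain ⟨n0, hn0⟩ := eventually_atTop.mp hstep
  -- transfer to m
  have hK : 0 < c0 + β * (ε * c1) - η := by
    have hc0pos : 0 < c0 := by
      rw [hc0]
      have h1 : 0 ≤ LA / LB := by positivity
      nlinarith
    have h2 : 0 ≤ β * (ε * c1) := by positivity
    have h3 : 0 ≤ γ * ((1 - ε) * S) := by positivity
    rw [hη]
    linarith
  set K : ℝ := c0 + β * (ε * c1) - η with hKd
  have htend : Tendsto (fun m : ℕ => ⌊(m : ℝ) ^ (1 / (1 - ε))⌋₊) atTop atTop := by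
    apply tendsto_nat_floor_atTop.comp
    exact (tendsto_rpow_atTop (by positivity)).comp tendsto_natCast_atTop_atTop
  have hgap : 0 < K / (1 - ε) - γ * S := by
    rw [sub_pos, lt_div_iff₀ h1ε, hKd]
    have : γ * S * (1 - ε) = γ * ((1 - ε) * S) := by ring
    rw [this]
    linarith
  filter_upwards [htend.eventually (eventually_ge_atTop n0),
    htend.eventually (eventually_ge_atTop 1), eventually_ge_atTop 2,
    ev_const_le (C := K * Real.log 2) hgap] with m hm1 hm2 hm3 hm4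
  have hmpos : (0 : ℝ) < m := by exact_mod_cast (by omega : 0 < m)
  set n := ⌊(m : ℝ) ^ (1 / (1 - ε))⌋₊ with hn
  have hnpos : (0 : ℝ) < n := by exact_mod_cast hm2
  have hnle : (n : ℝ) ≤ (m : ℝ) ^ (1 / (1 - ε)) := Nat.floor_le (by positivity)
  have hfl : ⌊(n : ℝ) ^ (1 - ε)⌋₊ ≤ m := by
    have h1 : (n : ℝ) ^ (1 - ε) ≤ m := by
      calc (n : ℝ) ^ (1 - ε) ≤ ((m : ℝ) ^ (1 / (1 - ε))) ^ (1 - ε) :=
            Real.rpow_le_rpow hnpos.le hnle h1ε.le
        _ = m := by
            rw [← Real.rpow_mul hmpos.le, one_div, inv_mul_cancel₀ h1ε.ne', Real.rpow_one]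
    exact Nat.floor_le_of_le h1
  have hlogn : 1 / (1 - ε) * Real.log m - Real.log 2 ≤ Real.log n := by
    have h1 : (m : ℝ) ^ (1 / (1 - ε)) / 2 ≤ n := by
      have h2 := Nat.lt_floor_add_one ((m : ℝ) ^ (1 / (1 - ε)))
      rw [← hn] at h2
      have h3 : (1 : ℝ) ≤ n := by exact_mod_cast hm2
      linarith
    have h2 := Real.log_le_log (by positivity) h1
    rw [Real.log_div (by positivity) (by norm_num), Real.log_rpow hmpos] at h2
    exact h2
  have hr : (r ⌊(n : ℝ) ^ (1 - ε)⌋₊ : ℝ) ≤ r m := by exact_mod_cast r_mono hfl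
  have h5 := hn0 n hm1
  have h6 : K * (1 / (1 - ε) * Real.log m - Real.log 2) ≤ K * Real.log n :=
    mul_le_mul_of_nonneg_left hlogn hK.le
  have h7 : S * (r ⌊(n : ℝ) ^ (1 - ε)⌋₊ : ℝ) ≤ S * r m := mul_le_mul_of_nonneg_left hr hSpos.le
  have h8 : γ * S * Real.log m ≤ S * r m := by
    have h9 : (K / (1 - ε) - γ * S) * Real.log m =
      K * (1 / (1 - ε) * Real.log m) - γ * S * Real.log m := by ring
    rw [h9] at hm4
    linarith
  have h9 : S * (γ * Real.log m) ≤ S * r m := by linarith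
  exact le_of_mul_le_mul_left h9 hSpos

lemma numeric (ε : ℝ) (h1 : 0.4712 ≤ ε) (h2 : ε < 1 / 2) :
    2 * ((1 - ε) * (LA + LB) - ε * (LB - LA ^ 2 / LB)) < (1 - ε * (1 - LA / LB)) * Real.log 2 := by
  set a := Real.log 2 with ha
  set b := Real.log 3 with hb
  have hapos : 0 < a := Real.log_pos (by norm_num)
  have hbpos : 0 < b := Real.log_pos (by norm_num)
  have hLA : LA = 2 * b - 3 * a := by
    unfold LA
    rw [Real.log_div (by norm_num) (by norm_num), show (9 : ℝ) = 3 ^ 2 by norm_num,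
      show (8 : ℝ) = 2 ^ 3 by norm_num, Real.log_pow, Real.log_pow]
    push_cast
    ring
  have hLB : LB = 2 * b := by
    unfold LB
    rw [show (9 : ℝ) = 3 ^ 2 by norm_num, Real.log_pow]
    push_cast
    ring
  -- bounds for b / a
  have hlow : 3 * a < 2 * b := by
    have : LA = 2 * b - 3 * a := hLA
    have := LA_pos
    linarith
  have hup : 94 * b < 149 * a := by
    have h3 : Real.log ((3 : ℝ) ^ 94) < Real.log ((2 : ℝ) ^ 149) :=
      Real.log_lt_log (by positivity) (by norm_num)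
    rw [Real.log_pow, Real.log_pow] at h3
    exact_mod_cast h3
  rw [hLA, hLB]
  have hkey : 0 < (1 - ε) * (14 * a * b - 16 * b ^ 2) + ε * (26 * a * b - 21 * a ^ 2) := by
    have hmono : 0 ≤ (ε - 0.4712) * ((26 * a * b - 21 * a ^ 2) - (14 * a * b - 16 * b ^ 2)) := by
      apply mul_nonneg (by linarith)
      nlinarith
    have hbase : 0 < (1 - 0.4712) * (14 * a * b - 16 * b ^ 2) + 0.4712 * (26 * a * b - 21 * a ^ 2) := by
      nlinarith [mul_pos (sub_pos.mpr hlow) (sub_pos.mpr hup), mul_pos hapos hapos,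
        mul_pos hapos (sub_pos.mpr hup), mul_pos hapos (sub_pos.mpr hlow)]
    nlinarith
  have hexp : (1 - ε * (1 - (2 * b - 3 * a) / (2 * b))) * a -
      2 * ((1 - ε) * (2 * b - 3 * a + 2 * b) - ε * (2 * b - (2 * b - 3 * a) ^ 2 / (2 * b))) =
      ((1 - ε) * (14 * a * b - 16 * b ^ 2) + ε * (26 * a * b - 21 * a ^ 2)) / (2 * b) := by
    field_simp
    ring
  have hpos : 0 < ((1 - ε) * (14 * a * b - 16 * b ^ 2) + ε * (26 * a * b - 21 * a ^ 2)) / (2 * b) := by
    positivity
  linarith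

theorem main (ε : ℝ) (h1 : 0.4712 ≤ ε) (h2 : ε < 1 / 2) :
    {n : ℕ | ∃ G : SimpleGraph (Fin n), (G.cliqueNum : ℝ) ≤ (n : ℝ) ^ ε ∧
      Forces G (r ⌊(n : ℝ) ^ (1 - ε)⌋₊)}.Infinite := by
  rw [← Nat.frequently_atTop_iff_infinite]
  by_contra hcon
  rw [Filter.not_frequently] at hcon
  have hε : 0 < ε := by linarith
  have hA := LA_pos
  have hB := LB_pos
  have hc1 := c1_nonneg
  have hlog2 : 0 < Real.log 2 := Real.log_pos (by norm_num)
  set S : Set ℝ := {β | Grow β} with hS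
  have hbdd : BddAbove S := ⟨2 / Real.log 2, fun β hβ => by
    rw [le_div_iff₀ hlog2]; exact Grow.le hβ⟩
  have hne : S.Nonempty := ⟨0, grow_zero⟩
  set B := sSup S with hBd
  have hB0 : 0 ≤ B := le_csSup hbdd grow_zero
  have hBU : B * Real.log 2 ≤ 2 := by
    have h3 : B ≤ 2 / Real.log 2 := csSup_le hne (fun β hβ => by
      rw [le_div_iff₀ hlog2]; exact Grow.le hβ)
    rwa [le_div_iff₀ hlog2] at h3
  set c0 : ℝ := 1 - ε * (1 - LA / LB) with hc0
  set c1 : ℝ := LB - LA ^ 2 / LB with hc1d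
  have h1ε : 0 < 1 - ε := by linarith
  have hden : 0 < (1 - ε) * (LA + LB) := by positivity
  have hkey : ∀ β ∈ S, 0 ≤ β → c0 + β * (ε * c1) ≤ B * ((1 - ε) * (LA + LB)) := by
    intro β hβ hβ0
    rw [← div_le_iff₀ hden]
    by_contra hlt
    push Not at hlt
    set X := (c0 + β * (ε * c1)) / ((1 - ε) * (LA + LB)) with hX
    have hγ1 : (B + X) / 2 < X := by linarith
    have hγ2 : B < (B + X) / 2 := by linarith
    have h3 : Grow ((B + X) / 2) := grow_step ε hε h2 hcon β hβ0 hβ ((B + X) / 2) (by linarith)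
      (by rw [← lt_div_iff₀ hden]; exact hγ1)
    have h4 : (B + X) / 2 ≤ B := le_csSup hbdd h3
    linarith
  have hc1pos : 0 < c1 := by
    have hlt : LA < LB := Real.log_lt_log (by norm_num) (by norm_num)
    rw [hc1d, sub_pos, div_lt_iff₀ hB]
    nlinarith
  have hεc1 : 0 < ε * c1 := by positivity
  have h00 := hkey 0 grow_zero le_rfl
  rw [zero_mul, add_zero] at h00
  have hB2 : B ≤ (B * ((1 - ε) * (LA + LB)) - c0) / (ε * c1) := by
    apply csSup_le hne
    intro β hβ
    rw [le_div_iff₀ hεc1]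
    rcases le_or_gt 0 β with hβ0 | hβ0
    · have := hkey β hβ hβ0
      linarith
    · have h3 : β * (ε * c1) < 0 := mul_neg_of_neg_of_pos hβ0 hεc1
      linarith
  rw [le_div_iff₀ hεc1] at hB2
  have hgap : 0 ≤ (1 - ε) * (LA + LB) - ε * c1 := by
    have h3 : c1 ≤ LB := by
      rw [hc1d]
      have : 0 ≤ LA ^ 2 / LB := by positivity
      linarith
    have h4 : ε * c1 ≤ (1 - ε) * LB := by
      calc ε * c1 ≤ ε * LB := mul_le_mul_of_nonneg_left h3 hε.le
        _ ≤ (1 - ε) * LB := mul_le_mul_of_nonneg_right (by linarith) hB.le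
    nlinarith
  have h5 : c0 ≤ B * ((1 - ε) * (LA + LB) - ε * c1) := by linarith
  have h6 : c0 * Real.log 2 ≤ 2 * ((1 - ε) * (LA + LB) - ε * c1) := by
    calc c0 * Real.log 2 ≤ B * ((1 - ε) * (LA + LB) - ε * c1) * Real.log 2 :=
          mul_le_mul_of_nonneg_right h5 hlog2.le
      _ = (B * Real.log 2) * ((1 - ε) * (LA + LB) - ε * c1) := by ring
      _ ≤ 2 * ((1 - ε) * (LA + LB) - ε * c1) := mul_le_mul_of_nonneg_right hBU hgap
  have h7 := numeric ε h1 h2
  linarith

end Pool.Agent.Helper78.Ramsey
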