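import Mathlib
import Pool.Agent.Helper78.LocalBound

open Finset
open scoped commutatorElement
set_option linter.unusedSectionVars false

namespace Pool.Agent.Helper78.Wreath

variable {K Q : Type} [Group K] [CommGroup Q] [DecidableEq Q]

/-- `A` contains the support of the base part of `a` -/
def LS (a : K ≀ᵣ Q) (A : Finset Q) : Prop := ∀ t, t ∉ A → a.left t = 1

lemma LS.mono {a : K ≀ᵣ Q} {A B : Finset Q} (h : LS a A) (hAB : A ⊆ B) : LS a B :=
  fun t ht => h t (fun h' => ht (hAB h'))

lemma LS.one : LS (1 : K ≀ᵣ Q) ∅ := fun _ _ => rfl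

/-- translate of a finite set -/
def tr (q : Q) (A : Finset Q) : Finset Q := A.image (fun t => q * t)

lemma mem_tr {q t : Q} {A : Finset Q} : t ∈ tr q A ↔ q⁻¹ * t ∈ A := by
  unfold tr
  rw [Finset.mem_image]
  constructor
  · rintro ⟨s, hs, rfl⟩
    simpa using hs
  · intro h
    exact ⟨q⁻¹ * t, h, by simp⟩

lemma card_tr (q : Q) (A : Finset Q) : (tr q A).card = A.card :=
  Finset.card_image_of_injective _ (mul_right_injective q)

lemma LS.mul {a b : K ≀ᵣ Q} {A B : Finset Q} (ha : LS a A) (hb : LS b B) :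
    LS (a * b) (A ∪ tr a.right B) := by
  intro t ht
  rw [Finset.mem_union, not_or, mem_tr] at ht
  rw [RegularWreathProduct.mul_left, Pi.mul_apply, ha t ht.1, hb _ ht.2, one_mul]

lemma LS.inv {a : K ≀ᵣ Q} {A : Finset Q} (ha : LS a A) : LS a⁻¹ (tr a.right⁻¹ A) := by
  intro t ht
  rw [mem_tr, inv_inv] at ht
  rw [RegularWreathProduct.inv_left]
  simp [ha _ ht]

/-- product of a list of elements with supports in `D` -/
lemma exists_LS_list (D : Finset Q) (l : List (K ≀ᵣ Q)) (hl : ∀ a ∈ l, LS a D) :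
    ∃ A : Finset Q, LS l.prod A ∧ A.card ≤ l.length * D.card := by
  induction l with
  | nil => exact ⟨∅, LS.one, by simp⟩
  | cons a l ih =>
    obtain ⟨A, hA, hc⟩ := ih (fun b hb => hl b (List.mem_cons_of_mem _ hb))
    refine ⟨D ∪ tr a.right A, ?_, ?_⟩
    · rw [List.prod_cons]
      exact (hl a List.mem_cons_self).mul hA
    · calc (D ∪ tr a.right A).card ≤ D.card + (tr a.right A).card := Finset.card_union_le _ _
        _ ≤ D.card + l.length * D.card := by rw [card_tr]; omega
        _ = (a :: l).length * D.card := by rw [List.length_cons]; ring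

/-- the commutator of two elements with small supports has small support -/
lemma exists_LS_comm {x y : K ≀ᵣ Q} {A B : Finset Q} (hx : LS x A) (hy : LS y B) :
    ∃ C : Finset Q, LS ⁅x, y⁆ C ∧ C.card ≤ 2 * A.card + 2 * B.card := by
  rw [commutatorElement_def]
  refine ⟨_, ((hx.mul hy).mul hx.inv).mul hy.inv, ?_⟩
  refine (Finset.card_union_le _ _).trans ?_
  have h1 := Finset.card_union_le (A ∪ tr x.right B) (tr (x * y).right (tr x.right⁻¹ A))
  have h2 := Finset.card_union_le A (tr x.right B)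
  simp only [card_tr] at *
  omega

lemma comm_right (x y : K ≀ᵣ Q) : ⁅x, y⁆.right = 1 := by
  have h : ∀ g : K ≀ᵣ Q, g.right = RegularWreathProduct.rightHom g := fun g => rfl
  rw [h, map_commutatorElement]
  exact commutatorElement_eq_one_iff_mul_comm.mpr (mul_comm _ _)

/-- conjugates of base elements: the support is translated -/
lemma LS.conj {c : K ≀ᵣ Q} {A : Finset Q} (hc : LS c A) (h1 : c.right = 1) (z : K ≀ᵣ Q) :
    LS (z * c * z⁻¹) (tr z.right A) := by
  intro t ht
  rw [mem_tr] at ht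
  have h2 := hc _ ht
  simp [h1, h2]

/-- base elements with disjoint supports commute -/
lemma commute_of_disjoint {c d : K ≀ᵣ Q} {A B : Finset Q} (hc : LS c A) (hd : LS d B)
    (h1 : c.right = 1) (h2 : d.right = 1) (hAB : ∀ t ∈ A, t ∉ B) : ⁅c, d⁆ = 1 := by
  rw [commutatorElement_eq_one_iff_mul_comm]
  ext t
  · rw [RegularWreathProduct.mul_left, RegularWreathProduct.mul_left, h1, h2]
    simp only [Pi.mul_apply, inv_one, one_mul]
    by_cases ht : t ∈ A
    · rw [hd t (hAB t ht), mul_one, one_mul]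
    · rw [hc t ht, mul_one, one_mul]
  · rw [RegularWreathProduct.mul_right, RegularWreathProduct.mul_right, h1, h2]

/-- if `⁅z⁅x,y⁆z⁻¹, ⁅x,y⁆⁆ ≠ 1` then the position of `z` is a quotient of two points of the
support of `⁅x,y⁆` -/
lemma exists_of_ne_one {x y z : K ≀ᵣ Q} {C : Finset Q} (hC : LS ⁅x, y⁆ C)
    (hne : ⁅z * ⁅x, y⁆ * z⁻¹, ⁅x, y⁆⁆ ≠ 1) : ∃ a ∈ C, ∃ b ∈ C, z.right = a * b⁻¹ := by
  by_contra hcon
  push Not at hcon
  apply hne
  refine commute_of_disjoint (hC.conj (comm_right x y) z) hC ?_ (comm_right x y) ?_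
  · rw [RegularWreathProduct.mul_right, RegularWreathProduct.mul_right, comm_right]
    simp
  · intro t ht ht2
    rw [mem_tr] at ht
    exact hcon t ht2 _ ht (by simp)

end Pool.Agent.Helper78.Wreath
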