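import Mathlib
import Pool.Agent.Helper78.LazyWalkDefs
import Pool.Agent.Helper78.LocalBound
import Pool.Agent.Helper78.Wreath

open Filter Topology Finset
open scoped commutatorElement

namespace Pool.Agent.Helper78.SolvableWalk

open Pool.Agent.Helper78.LazyWalk

/-! ### The group -/

open Pool.Agent.Helper78

/-- the lamp group -/
abbrev K : Type := DihedralGroup 4

/-- the base group of positions -/
abbrev Q : Type := Multiplicative (Fin 6 → ℤ)

abbrev W : Type := K ≀ᵣ Q

/-- the inclusion of the base group in the unrestricted wreath product -/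
def baseHom : (Q → K) →* W where
  toFun b := ⟨b, 1⟩
  map_one' := rfl
  map_mul' a b := by ext <;> simp

instance : Group.IsNilpotent K := by
  apply IsPGroup.isNilpotent (p := 2)
  apply IsPGroup.of_card (n := 3)
  rw [DihedralGroup.nat_card]; norm_num

instance : Group.IsNilpotent (Q → K) :=
  Group.isNilpotent_pi_of_bounded_class (Group.nilpotencyClass K) (fun _ => le_rfl)

instance : Group.IsSolvable W := by
  apply Group.isSolvable_of_ker_le_range baseHom RegularWreathProduct.rightHom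
  intro g hg
  rw [MonoidHom.mem_ker] at hg
  refine ⟨g.left, ?_⟩
  apply RegularWreathProduct.ext
  · rfl
  · exact hg.symm

/-- the lamp at the origin -/
noncomputable def lamp (k : K) : W := ⟨Pi.mulSingle 1 k, 1⟩

/-- a move -/
def move (i : Fin 6) : W := ⟨1, Multiplicative.ofAdd (Pi.single i 1)⟩

/-- the generators -/
def gens : Set W := Set.range lamp ∪ Set.range move

/-- The restricted wreath product, as the subgroup generated by the lamps at the origin and the
moves. -/
abbrev G : Type := Subgroup.closure gens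

lemma gens_finite : gens.Finite := (Set.finite_range _).union (Set.finite_range _)

lemma G_fg : Group.FG G := by
  rw [Group.fg_iff_subgroup_fg, Subgroup.fg_iff]
  exact ⟨gens, rfl, gens_finite⟩

/-- every element of `G` has finite support -/
lemma exists_LS (g : W) (hg : g ∈ Subgroup.closure gens) : ∃ A : Finset Q, Wreath.LS g A := by
  classical
  induction hg using Subgroup.closure_induction with
  | mem x hx =>
    rcases hx with ⟨k, rfl⟩ | ⟨i, rfl⟩
    · refine ⟨{1}, fun t ht => ?_⟩
      rw [Finset.mem_singleton] at ht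
      exact Pi.mulSingle_eq_of_ne (M := fun _ => K) ht k
    · exact ⟨∅, fun t _ => rfl⟩
  | one => exact ⟨∅, Wreath.LS.one⟩
  | mul x y _ _ hx hy =>
    obtain ⟨A, hA⟩ := hx
    obtain ⟨B, hB⟩ := hy
    exact ⟨_, hA.mul hB⟩
  | inv x _ hx =>
    obtain ⟨A, hA⟩ := hx
    exact ⟨_, hA.inv⟩

/-- position of an element, additively -/
def pos (g : G) : Fin 6 → ℤ := Multiplicative.toAdd (g : W).right

lemma pos_one : pos 1 = 0 := rfl

lemma pos_mul (g h : G) : pos (g * h) = pos g + pos h := rfl

lemma pos_inv (g : G) : pos g⁻¹ = - pos g := rfl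

lemma pos_list (l : List G) : pos l.prod = (l.map pos).sum := by
  induction l with
  | nil => rfl
  | cons a l ih => rw [List.prod_cons, pos_mul, ih, List.map_cons, List.sum_cons]

/-- rational version -/
def qpos (g : G) : Fin 6 → ℚ := fun i => ((pos g i : ℤ) : ℚ)

lemma qpos_mul (g h : G) : qpos (g * h) = qpos g + qpos h := by
  funext i
  simp [qpos, pos_mul]

lemma qpos_inv (g : G) : qpos g⁻¹ = - qpos g := by
  funext i
  simp [qpos, pos_inv]

lemma qpos_one : qpos 1 = 0 := by
  funext i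
  simp [qpos, pos_one]

/-- a generating set contains six elements with independent positions -/
lemma exists_six (S : Set G) (hS : Subgroup.closure S = ⊤) :
    ∃ s : Fin 6 → G, (∀ i, s i ∈ S ∧ s i ≠ 1) ∧
      Function.Injective (fun a : Fin 6 → ℕ => ∑ i, a i • pos (s i)) := by
  have hspan : Submodule.span ℚ (qpos '' S) = ⊤ := by
    have hall : ∀ g : G, qpos g ∈ Submodule.span ℚ (qpos '' S) := by
      intro g
      have hg : g ∈ Subgroup.closure S := by rw [hS]; trivial
      induction hg using Subgroup.closure_induction with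
      | mem x hx => exact Submodule.subset_span ⟨x, hx, rfl⟩
      | one => rw [qpos_one]; exact Submodule.zero_mem _
      | mul x y _ _ hx hy => rw [qpos_mul]; exact Submodule.add_mem _ hx hy
      | inv x _ hx => rw [qpos_inv]; exact Submodule.neg_mem _ hx
    rw [eq_top_iff, ← (Pi.basisFun ℚ (Fin 6)).span_eq, Submodule.span_le]
    rintro _ ⟨i, rfl⟩
    have h1 := hall ⟨move i, Subgroup.subset_closure (Or.inr ⟨i, rfl⟩)⟩
    have h2 : (Pi.basisFun ℚ (Fin 6)) i = qpos ⟨move i, Subgroup.subset_closure (Or.inr ⟨i, rfl⟩)⟩ := by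
     funext j
     rw [Pi.basisFun_apply]
     show (Pi.single i (1 : ℚ) : Fin 6 → ℚ) j = (((Pi.single i (1 : ℤ) : Fin 6 → ℤ) j : ℤ) : ℚ)
     by_cases hij : j = i
     · subst hij; simp
     · simp [Pi.single_eq_of_ne hij]
    rw [SetLike.mem_coe, h2]
    exact h1
  obtain ⟨f, hf, -, hli⟩ := Submodule.exists_fun_fin_finrank_span_eq ℚ (qpos '' S)
  have hfr : Module.finrank ℚ (Submodule.span ℚ (qpos '' S)) = 6 := by
    rw [hspan, finrank_top, Module.finrank_fin_fun]
  set f' : Fin 6 → (Fin 6 → ℚ) := fun i => f (Fin.cast hfr.symm i) with hf'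
  have hli' : LinearIndependent ℚ f' := hli.comp _ (Fin.cast_injective _)
  have hch : ∀ i, ∃ g ∈ S, qpos g = f' i := fun i => hf _
  choose s hsS hs using hch
  refine ⟨s, fun i => ⟨hsS i, ?_⟩, ?_⟩
  · intro h1
    have h2 : f' i = 0 := by rw [← hs i, h1, qpos_one]
    exact hli'.ne_zero i h2
  · intro a b hab
    have h3 : ∑ i, ((a i : ℚ) - (b i : ℚ)) • f' i = 0 := by
      have h4 : ∀ c : Fin 6 → ℕ, ∑ i, (c i : ℚ) • f' i =
          fun j => (((∑ i, c i • pos (s i)) j : ℤ) : ℚ) := by
        intro c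
        funext j
        rw [Finset.sum_apply, Finset.sum_apply]
        push_cast
        refine Finset.sum_congr rfl (fun i _ => ?_)
        rw [← hs i]
        simp [qpos]
      simp only [sub_smul, Finset.sum_sub_distrib]
      rw [h4 a, h4 b]
      dsimp only at hab
      rw [hab, sub_self]
    have h5 := Fintype.linearIndependent_iff.mp hli' _ h3
    funext i
    have h6 := h5 i
    have h7 : (a i : ℚ) = (b i : ℚ) := by linarith
    exact_mod_cast h7

/-- the word `[z[x,y]z⁻¹, [x,y]]` -/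
def word : FreeGroup (Fin 3) :=
  ⁅FreeGroup.of (2 : Fin 3) * ⁅FreeGroup.of (0 : Fin 3), FreeGroup.of (1 : Fin 3)⁆ *
    (FreeGroup.of (2 : Fin 3))⁻¹, ⁅FreeGroup.of (0 : Fin 3), FreeGroup.of (1 : Fin 3)⁆⁆

lemma lift_word {H : Type} [Group H] (g : Fin 3 → H) :
    FreeGroup.lift g word = ⁅g 2 * ⁅g 0, g 1⁆ * (g 2)⁻¹, ⁅g 0, g 1⁆⁆ := by
  simp only [word, commutatorElement_def, map_mul, map_inv, FreeGroup.lift_apply_of]

lemma pos_endpoint {T : Set G} {n : ℕ} (s : Fin n → T) :
    pos (endpoint s) = ∑ j, pos (s j : G) := by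
  unfold endpoint
  rw [pos_list, List.map_ofFn, List.sum_ofFn]
  rfl

/-- the number of step sequences with a prescribed endpoint position -/
lemma card_pos_le (S : Set G) (hfin : S.Finite) (hS : Subgroup.closure S = ⊤) (n : ℕ) (hn : 0 < n)
    (q : Fin 6 → ℤ) :
    (Nat.card {s : Fin n → ↥(insert (1 : G) S) // pos (endpoint s) = q} : ℝ) ≤
      (Nat.card ↥(insert (1 : G) S) : ℝ) ^ n * (3 * (Nat.card ↥(insert (1 : G) S) : ℝ) / n) ^ 3 := by
  classical
  obtain ⟨s, hs, hinj⟩ := exists_six S hS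
  have hT : (insert (1 : G) S).Finite := hfin.insert 1
  set T : Finset G := hT.toFinset with hTdef
  have hmem : ∀ g : G, g ∈ T ↔ g ∈ insert (1 : G) S := fun g => hT.mem_toFinset
  have hcard : Nat.card ↥(insert (1 : G) S) = T.card := by
    rw [hTdef, ← Set.ncard_eq_toFinset_card _ hT, Set.ncard_def, Set.encard]
    rfl
  have h1 := LocalBound.count_le_six T pos 1 ((hmem 1).mpr (Set.mem_insert _ _)) pos_one s
    (fun i => ⟨(hmem _).mpr (Set.mem_insert_of_mem _ (hs i).1), (hs i).2⟩) hinj n hn q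
  rw [hcard]
  refine le_trans (le_of_eq ?_) h1
  congr 1
  apply Nat.card_congr
  refine Equiv.subtypeEquiv (Equiv.arrowCongr (Equiv.refl _) (Equiv.subtypeEquivRight
    (fun g => (hmem g).symm))) ?_
  intro t
  rw [pos_endpoint]
  rfl

/-- supports of endpoints -/
lemma exists_support_bound (S : Set G) (hfin : S.Finite) :
    ∃ D : ℕ, ∀ (n : ℕ) (x y : Fin n → ↥(insert (1 : G) S)),
      ∃ C : Finset Q, Wreath.LS ⁅((endpoint x : G) : W), ((endpoint y : G) : W)⁆ C ∧
        C.card ≤ 4 * n * D := by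
  classical
  have hT : (insert (1 : G) S).Finite := hfin.insert 1
  have hex : ∀ g : G, ∃ A : Finset Q, Wreath.LS (g : W) A := fun g => exists_LS g g.2
  choose A hA using hex
  set D0 : Finset Q := hT.toFinset.biUnion A with hD0
  have hD : ∀ g ∈ insert (1 : G) S, Wreath.LS (g : W) D0 := by
    intro g hg
    exact (hA g).mono (Finset.subset_biUnion_of_mem A (hT.mem_toFinset.mpr hg))
  have hend : ∀ (n : ℕ) (x : Fin n → ↥(insert (1 : G) S)),
      ∃ B : Finset Q, Wreath.LS ((endpoint x : G) : W) B ∧ B.card ≤ n * D0.card := by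
    intro n x
    obtain ⟨B, hB, hc⟩ := Wreath.exists_LS_list D0
      ((List.ofFn fun j => ((x j : G) : W))) (by
        intro a ha
        rw [List.mem_ofFn] at ha
        obtain ⟨j, rfl⟩ := ha
        exact hD _ (x j).2)
    refine ⟨B, ?_, ?_⟩
    · have h1 : ((endpoint x : G) : W) = (List.ofFn fun j => ((x j : G) : W)).prod := by
        unfold endpoint
        rw [← Subgroup.coe_subtype, map_list_prod, List.map_ofFn]
        rfl
      rw [h1]
      exact hB
    · rwa [List.length_ofFn] at hc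
  refine ⟨D0.card, fun n x y => ?_⟩
  obtain ⟨A1, hA1, hc1⟩ := hend n x
  obtain ⟨B1, hB1, hc2⟩ := hend n y
  obtain ⟨C, hC, hc⟩ := Wreath.exists_LS_comm hA1 hB1
  refine ⟨C, hC, ?_⟩
  calc C.card ≤ 2 * A1.card + 2 * B1.card := hc
    _ ≤ 2 * (n * D0.card) + 2 * (n * D0.card) := by omega
    _ = 4 * n * D0.card := by ring

/-- triples -/
def tripleEquiv (X : Type) : (Fin 3 → X) ≃ X × X × X where
  toFun s := (s 0, s 1, s 2)
  invFun t := ![t.1, t.2.1, t.2.2]
  left_inv s := by
    funext i
    fin_cases i <;> rfl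
  right_inv t := rfl

/-- the proportion of bad triples is small -/
lemma bad_le (S : Set G) (hfin : S.Finite) (hS : Subgroup.closure S = ⊤) :
    ∃ c : ℝ, ∀ n : ℕ, 0 < n →
      (Nat.card {s : Fin 3 → Fin n → ↥(insert (1 : G) S) //
        ¬ FreeGroup.lift (fun i => endpoint (s i)) word = 1} : ℝ) ≤
      (Nat.card (Fin 3 → Fin n → ↥(insert (1 : G) S)) : ℝ) * (c / n) := by
  classical
  have hT : (insert (1 : G) S).Finite := hfin.insert 1
  have : Finite ↥(insert (1 : G) S) := hT
  have : Fintype ↥(insert (1 : G) S) := Fintype.ofFinite _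
  obtain ⟨D, hD⟩ := exists_support_bound S hfin
  set N : ℝ := (Nat.card ↥(insert (1 : G) S) : ℝ) with hN
  refine ⟨16 * D ^ 2 * (3 * N) ^ 3, fun n hn => ?_⟩
  have hnpos : (0 : ℝ) < n := by exact_mod_cast hn
  choose C hC hCc using hD n
  set M : ℝ := N ^ n * (3 * N / n) ^ 3 with hM
  have hM0 : 0 ≤ M := by positivity
  have hloc : ∀ q : Q, (∑ z : Fin n → ↥(insert (1 : G) S),
      if ((endpoint z : G) : W).right = q then (1 : ℝ) else 0) ≤ M := by
    intro q
    have h1 := card_pos_le S hfin hS n hn (Multiplicative.toAdd q)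
    refine le_trans (le_of_eq ?_) h1
    rw [Nat.card_eq_fintype_card, Fintype.card_subtype, Finset.card_filter]
    push_cast
    refine Finset.sum_congr rfl (fun z _ => ?_)
    rfl
  have hsum : (Nat.card {s : Fin 3 → Fin n → ↥(insert (1 : G) S) //
        ¬ FreeGroup.lift (fun i => endpoint (s i)) word = 1} : ℝ) =
      ∑ x : Fin n → ↥(insert (1 : G) S), ∑ y : Fin n → ↥(insert (1 : G) S),
        ∑ z : Fin n → ↥(insert (1 : G) S),
        if ¬ ⁅endpoint z * ⁅endpoint x, endpoint y⁆ * (endpoint z)⁻¹,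
          ⁅endpoint x, (endpoint y : G)⁆⁆ = 1 then (1 : ℝ) else 0 := by
    rw [Nat.card_eq_fintype_card, Fintype.card_subtype, Finset.card_filter]
    push_cast
    rw [← (tripleEquiv (Fin n → ↥(insert (1 : G) S))).symm.sum_comp, Fintype.sum_prod_type]
    refine Finset.sum_congr rfl (fun x _ => ?_)
    rw [Fintype.sum_prod_type]
    refine Finset.sum_congr rfl (fun y _ => Finset.sum_congr rfl (fun z _ => ?_))
    rw [lift_word]
    rfl
  rw [hsum]
  have hinner : ∀ x y : Fin n → ↥(insert (1 : G) S),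
      (∑ z : Fin n → ↥(insert (1 : G) S),
        if ¬ ⁅endpoint z * ⁅endpoint x, endpoint y⁆ * (endpoint z)⁻¹,
          ⁅endpoint x, (endpoint y : G)⁆⁆ = 1 then (1 : ℝ) else 0) ≤ (4 * n * D : ℝ) ^ 2 * M := by
    intro x y
    have h1 : ∀ z : Fin n → ↥(insert (1 : G) S),
        (if ¬ ⁅endpoint z * ⁅endpoint x, endpoint y⁆ * (endpoint z)⁻¹,
          ⁅endpoint x, (endpoint y : G)⁆⁆ = 1 then (1 : ℝ) else 0) ≤
        ∑ a ∈ C x y, ∑ b ∈ C x y,
          if ((endpoint z : G) : W).right = a * b⁻¹ then (1 : ℝ) else 0 := by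
      intro z
      have hnn : ∀ a ∈ C x y, (0 : ℝ) ≤ ∑ b ∈ C x y,
          if ((endpoint z : G) : W).right = a * b⁻¹ then (1 : ℝ) else 0 :=
        fun a _ => Finset.sum_nonneg (fun b _ => by split_ifs <;> norm_num)
      split_ifs with h2
      · exact Finset.sum_nonneg hnn
      · have h3 : ⁅((endpoint z : G) : W) * ⁅((endpoint x : G) : W), ((endpoint y : G) : W)⁆ *
            ((endpoint z : G) : W)⁻¹, ⁅((endpoint x : G) : W), ((endpoint y : G) : W)⁆⁆ ≠ 1 := by
          intro h4
          apply h2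
          apply Subtype.ext
          exact h4
        obtain ⟨a, ha, b, hb, hab⟩ := Wreath.exists_of_ne_one (hC x y) h3
        calc (1 : ℝ) = if ((endpoint z : G) : W).right = a * b⁻¹ then (1 : ℝ) else 0 := by
              rw [if_pos hab]
          _ ≤ ∑ b ∈ C x y, if ((endpoint z : G) : W).right = a * b⁻¹ then (1 : ℝ) else 0 :=
              Finset.single_le_sum (f := fun b => if ((endpoint z : G) : W).right = a * b⁻¹
                then (1 : ℝ) else 0) (fun b _ => by split_ifs <;> norm_num) hb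
          _ ≤ _ := Finset.single_le_sum (f := fun a => ∑ b ∈ C x y,
                if ((endpoint z : G) : W).right = a * b⁻¹ then (1 : ℝ) else 0) hnn ha
    calc _ ≤ ∑ z : Fin n → ↥(insert (1 : G) S), ∑ a ∈ C x y, ∑ b ∈ C x y,
          (if ((endpoint z : G) : W).right = a * b⁻¹ then (1 : ℝ) else 0) :=
          Finset.sum_le_sum (fun z _ => h1 z)
      _ = ∑ a ∈ C x y, ∑ b ∈ C x y, ∑ z : Fin n → ↥(insert (1 : G) S),
          (if ((endpoint z : G) : W).right = a * b⁻¹ then (1 : ℝ) else 0) := by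
          rw [Finset.sum_comm]
          refine Finset.sum_congr rfl (fun a _ => ?_)
          rw [Finset.sum_comm]
      _ ≤ ∑ a ∈ C x y, ∑ b ∈ C x y, M :=
          Finset.sum_le_sum (fun a _ => Finset.sum_le_sum (fun b _ => hloc _))
      _ = ((C x y).card : ℝ) ^ 2 * M := by
          rw [Finset.sum_const, Finset.sum_const, nsmul_eq_mul, nsmul_eq_mul]; ring
      _ ≤ (4 * n * D : ℝ) ^ 2 * M := by
          apply mul_le_mul_of_nonneg_right _ hM0
          apply pow_le_pow_left₀ (by positivity)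
          exact_mod_cast hCc x y
  calc _ ≤ ∑ x : Fin n → ↥(insert (1 : G) S), ∑ y : Fin n → ↥(insert (1 : G) S),
        (4 * n * D : ℝ) ^ 2 * M :=
        Finset.sum_le_sum (fun x _ => Finset.sum_le_sum (fun y _ => hinner x y))
    _ = N ^ n * (N ^ n * ((4 * n * D : ℝ) ^ 2 * M)) := by
        rw [Finset.sum_const, Finset.sum_const, nsmul_eq_mul, nsmul_eq_mul, Finset.card_univ,
          Fintype.card_fun, Fintype.card_fin, hN, Nat.card_eq_fintype_card]
        push_cast
        rfl
    _ = (Nat.card (Fin 3 → Fin n → ↥(insert (1 : G) S)) : ℝ) *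
        (16 * D ^ 2 * (3 * N) ^ 3 / n) := by
        rw [Nat.card_fun, Nat.card_fun, Nat.card_fin, Nat.card_fin]
        push_cast
        rw [← hN, hM]
        field_simp
        ring

lemma lazyProb_eq (S : Set G) (hfin : S.Finite) (n : ℕ) :
    lazyProb S word n = 1 - (Nat.card {s : Fin 3 → Fin n → ↥(insert (1 : G) S) //
        ¬ FreeGroup.lift (fun i => endpoint (s i)) word = 1} : ℝ) /
        (Nat.card (Fin 3 → Fin n → ↥(insert (1 : G) S)) : ℝ) := by
  classical
  have hT : (insert (1 : G) S).Finite := hfin.insert 1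
  have : Finite ↥(insert (1 : G) S) := hT
  have : Fintype ↥(insert (1 : G) S) := Fintype.ofFinite _
  have : Nonempty ↥(insert (1 : G) S) := ⟨⟨1, Set.mem_insert _ _⟩⟩
  have htot : (0 : ℝ) < (Nat.card (Fin 3 → Fin n → ↥(insert (1 : G) S)) : ℝ) := by
    exact_mod_cast Nat.card_pos
  unfold lazyProb
  rw [eq_sub_iff_add_eq, ← add_div, div_eq_one_iff_eq htot.ne']
  rw [Nat.card_eq_fintype_card, Nat.card_eq_fintype_card, Nat.card_eq_fintype_card]
  have h := Fintype.card_subtype_compl (fun s : Fin 3 → Fin n → ↥(insert (1 : G) S) =>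
    FreeGroup.lift (fun i => endpoint (s i)) word = 1)
  have h2 := Fintype.card_subtype_le (fun s : Fin 3 → Fin n → ↥(insert (1 : G) S) =>
    FreeGroup.lift (fun i => endpoint (s i)) word = 1)
  rw [h, Nat.cast_sub h2]
  ring

lemma tendsto_word (S : Set G) (hfin : S.Finite) (hS : Subgroup.closure S = ⊤) :
    Tendsto (lazyProb S word) atTop (𝓝 1) := by
  classical
  have hT : (insert (1 : G) S).Finite := hfin.insert 1
  have : Finite ↥(insert (1 : G) S) := hT
  have : Nonempty ↥(insert (1 : G) S) := ⟨⟨1, Set.mem_insert _ _⟩⟩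
  obtain ⟨c, hc⟩ := bad_le S hfin hS
  have hlow : ∀ᶠ n : ℕ in atTop, 1 - c / n ≤ lazyProb S word n := by
    filter_upwards [eventually_gt_atTop 0] with n hn
    rw [lazyProb_eq S hfin]
    have htot : (0 : ℝ) < (Nat.card (Fin 3 → Fin n → ↥(insert (1 : G) S)) : ℝ) := by
      exact_mod_cast Nat.card_pos
    have h1 := hc n hn
    have h2 : (Nat.card {s : Fin 3 → Fin n → ↥(insert (1 : G) S) //
        ¬ FreeGroup.lift (fun i => endpoint (s i)) word = 1} : ℝ) /
        (Nat.card (Fin 3 → Fin n → ↥(insert (1 : G) S)) : ℝ) ≤ c / n := by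
      rw [div_le_iff₀ htot]
      linarith
    linarith
  have hup : ∀ᶠ n : ℕ in atTop, lazyProb S word n ≤ 1 := by
    filter_upwards with n
    rw [lazyProb_eq S hfin]
    have : (0 : ℝ) ≤ (Nat.card {s : Fin 3 → Fin n → ↥(insert (1 : G) S) //
        ¬ FreeGroup.lift (fun i => endpoint (s i)) word = 1} : ℝ) /
        (Nat.card (Fin 3 → Fin n → ↥(insert (1 : G) S)) : ℝ) := by positivity
    linarith
  have hlim : Tendsto (fun n : ℕ => 1 - c / (n : ℝ)) atTop (𝓝 1) := by
    have := (tendsto_const_div_atTop_nhds_zero_nat c).const_sub 1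
    simpa using this
  exact tendsto_of_tendsto_of_tendsto_of_le_of_le' hlim tendsto_const_nhds hlow hup

lemma eval_left (x y : W) (hx : x.right = 1) (hy : y.left = 1) :
    (⁅y⁻¹ * ⁅x, y⁆ * (y⁻¹)⁻¹, ⁅x, y⁆⁆ : W).left 1 =
      (x.left y.right * (x.left 1)⁻¹) * (x.left 1 * (x.left y.right⁻¹)⁻¹) *
        (x.left y.right * (x.left 1)⁻¹)⁻¹ * (x.left 1 * (x.left y.right⁻¹)⁻¹)⁻¹ := by
  simp [commutatorElement_def, hx, hy, mul_assoc]

/-- `word` is not a law of `G` -/
lemma not_law : ∃ g : Fin 3 → G, FreeGroup.lift g word ≠ 1 := by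
  classical
  -- two non-commuting lamps
  set k1 : K := DihedralGroup.r 1
  set k2 : K := DihedralGroup.sr 0
  have hk : k2 * k1 * k2⁻¹ * k1⁻¹ ≠ 1 := by decide
  have hl : ∀ k : K, lamp k ∈ Subgroup.closure gens := fun k =>
    Subgroup.subset_closure (Or.inl ⟨k, rfl⟩)
  have hm : ∀ i, move i ∈ Subgroup.closure gens := fun i =>
    Subgroup.subset_closure (Or.inr ⟨i, rfl⟩)
  set x : G := ⟨lamp k1 * (move 0 * lamp k2 * (move 0)⁻¹), Subgroup.mul_mem _ (hl _)
    (Subgroup.mul_mem _ (Subgroup.mul_mem _ (hm 0) (hl _)) (Subgroup.inv_mem _ (hm 0)))⟩ with hx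
  set y : G := ⟨move 0, hm 0⟩ with hy
  set z : G := y⁻¹ with hz
  refine ⟨![x, y, z], ?_⟩
  rw [lift_word]
  simp only [Matrix.cons_val_zero, Matrix.cons_val_one, Matrix.cons_val]
  intro hcon
  have h1 : (⁅(y : W)⁻¹ * ⁅(x : W), (y : W)⁆ * ((y : W)⁻¹)⁻¹, ⁅(x : W), (y : W)⁆⁆ : W).left 1 = 1 :=
    congrArg (fun g : G => (g : W).left 1) hcon
  have hx1 : (x : W).right = 1 := by
    show (lamp k1 * (move 0 * lamp k2 * (move 0)⁻¹)).right = 1
    simp [lamp, move]
  have hy1 : (y : W).left = 1 := rfl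
  set e : Q := Multiplicative.ofAdd (Pi.single 0 1) with he
  have hyr : (y : W).right = e := rfl
  have hene : e ≠ 1 := by
    rw [he]
    intro h
    have h2 := congrFun (congrArg Multiplicative.toAdd h) 0
    simp at h2
  have hxl : ∀ t, (x : W).left t = (Pi.mulSingle 1 k1 : Q → K) t * (Pi.mulSingle 1 k2 : Q → K) (e⁻¹ * t) := by
    intro t
    show (lamp k1 * (move 0 * lamp k2 * (move 0)⁻¹)).left t = _
    simp only [lamp, move, RegularWreathProduct.mul_left, RegularWreathProduct.mul_right,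
      RegularWreathProduct.inv_left, Pi.mul_apply, Pi.one_apply, Pi.inv_apply, inv_one, one_mul,
      mul_one]
    rfl
  rw [eval_left _ _ hx1 hy1, hyr] at h1
  have e1 : (x : W).left e = k2 := by
    rw [hxl, Pi.mulSingle_eq_of_ne hene, inv_mul_cancel, Pi.mulSingle_eq_same, one_mul]
  have e2 : (x : W).left 1 = k1 := by
    rw [hxl, Pi.mulSingle_eq_same, mul_one, Pi.mulSingle_eq_of_ne (inv_ne_one.mpr hene), mul_one]
  have e3 : (x : W).left e⁻¹ = 1 := by
    have hee : e⁻¹ * e⁻¹ ≠ 1 := by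
      rw [he]
      intro h
      have h2 := congrFun (congrArg Multiplicative.toAdd h) 0
      simp at h2
    rw [hxl, Pi.mulSingle_eq_of_ne (inv_ne_one.mpr hene), one_mul, Pi.mulSingle_eq_of_ne hee]
  rw [e1, e2, e3] at h1
  apply hk
  simpa [mul_assoc] using h1

end Pool.Agent.Helper78.SolvableWalk
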